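import Pool.Agent.Lib.MP_4960c7_ag.GK.Orb

/-!
# GK-BS: Bernoulli sums of a character at a higher level

`r` prime, `χ` odd (so not trivial, `∑ χ = 0`) modulo `d`, `χ'` the character modulo `d r` induced by `χ`.  `χ'(t) = χ(t) - [r ∣ t] χ(t)` (if `t` is prime to `d` and to `r`: clear; if not prime to `d`,
both sides are zero; if prime to `d` and divisible by `r`: both sides are zero).  `∑_(t mod dr) χ(t) t = r ∑_(t mod d) χ(t) t` (`t = t₀ + d j`, `j < r`, and `∑ χ(t₀) d j = 0`), and the multiples `t = r s`,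
`s < d`, give `∑_s χ(r) χ(s) r s`.
-/

namespace GK

open GJ

private theorem BS_sum (n : ℕ) [NeZero n] (g : ZMod n → ℕ → ℂ) :
    ∑ t : ZMod n, g t t.val = ∑ i ∈ Finset.range n, g (i : ZMod n) i := by
  refine Finset.sum_nbij' (fun t => t.val) (fun i => (i : ZMod n)) ?_ ?_ ?_ ?_ ?_
  · intro t _
    exact Finset.mem_range.2 (ZMod.val_lt t)
  · intro i _
    exact Finset.mem_univ _
  · intro t _
    exact ZMod.natCast_zmod_val t
  · intro i hi
    exact ZMod.val_cast_of_lt (Finset.mem_range.1 hi)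
  · intro t _
    rw [ZMod.natCast_zmod_val]

private theorem BS_level {d r : ℕ} [NeZero d] [NeZero r] (hr : r.Prime) (χ : DirichletCharacter ℂ d) (i : ℕ) :
    (DirichletCharacter.changeLevel (Nat.dvd_mul_right d r) χ) ((i : ℕ) : ZMod (d * r)) = if r ∣ i then 0 else χ (i : ZMod d) := by
  split_ifs with h
  · apply MulChar.map_nonunit
    rw [ZMod.isUnit_iff_coprime]
    intro h1
    have h2 : Nat.Coprime r r := Nat.Coprime.coprime_dvd_left h (Nat.Coprime.coprime_dvd_right (Nat.dvd_mul_left r d) h1)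
    rw [Nat.coprime_self] at h2
    exact hr.one_lt.ne' h2
  · by_cases h1 : Nat.Coprime i (d * r)
    · obtain ⟨u, hu⟩ := (ZMod.isUnit_iff_coprime i (d * r)).2 h1
      rw [← hu, DirichletCharacter.changeLevel_eq_cast_of_dvd, hu]
      congr 1
      exact ZMod.cast_natCast (Nat.dvd_mul_right d r) i
    · rw [MulChar.map_nonunit, MulChar.map_nonunit]
      · rw [ZMod.isUnit_iff_coprime]
        intro h2
        exact h1 (Nat.Coprime.mul_right h2 ((Nat.Prime.coprime_iff_not_dvd hr).2 h).symm)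
      · rwa [ZMod.isUnit_iff_coprime]

private theorem BS_first {d : ℕ} [NeZero d] (χ : DirichletCharacter ℂ d) (h0 : ∑ t ∈ Finset.range d, χ (t : ZMod d) = 0) (k : ℕ) :
    ∑ i ∈ Finset.range (d * k), χ (i : ZMod d) * (i : ℂ) = k * ∑ t ∈ Finset.range d, χ (t : ZMod d) * (t : ℂ) := by
  induction k with
  | zero => simp
  | succ k ih =>
    rw [Nat.mul_succ, Finset.sum_range_add, ih]
    have h1 : ∑ x ∈ Finset.range d, χ ((d * k + x : ℕ) : ZMod d) * ((d * k + x : ℕ) : ℂ) =
        (d * k : ℕ) * ∑ t ∈ Finset.range d, χ (t : ZMod d) + ∑ t ∈ Finset.range d, χ (t : ZMod d) * (t : ℂ) := by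
      rw [Finset.mul_sum, ← Finset.sum_add_distrib]
      refine Finset.sum_congr rfl fun x _ => ?_
      have h2 : ((d * k + x : ℕ) : ZMod d) = (x : ZMod d) := by
        push_cast
        rw [ZMod.natCast_self, zero_mul, zero_add]
      rw [h2]
      push_cast
      ring
    rw [h1, h0]
    push_cast
    ring

private theorem BS_second (r : ℕ) (hr : 0 < r) (g : ℕ → ℂ) (k : ℕ) :
    ∑ i ∈ Finset.range (r * k), (if r ∣ i then g i else 0) = ∑ s ∈ Finset.range k, g (r * s) := by
  induction k with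
  | zero => simp
  | succ k ih =>
    rw [Nat.mul_succ, Finset.sum_range_add, ih, Finset.sum_range_succ]
    congr 1
    rw [Finset.sum_eq_single 0]
    · rw [add_zero, if_pos (Nat.dvd_mul_right r k)]
    · intro t ht h0
      rw [if_neg]
      intro h
      have h1 : r ∣ t := (Nat.dvd_add_right (Nat.dvd_mul_right r k)).1 h
      exact absurd (Nat.le_of_dvd (Nat.pos_of_ne_zero h0) h1) (not_le.2 (Finset.mem_range.1 ht))
    · intro h
      exact absurd (Finset.mem_range.2 hr) h

theorem bern_step {d r : ℕ} [NeZero d] [NeZero r] (hr : r.Prime) (χ : DirichletCharacter ℂ d) (h : χ.Odd) :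
    ∑ t : ZMod (d * r), (DirichletCharacter.changeLevel (Nat.dvd_mul_right d r) χ) t * (t.val : ℂ) =
      r * (1 - χ (r : ZMod d)) * ∑ t : ZMod d, χ t * (t.val : ℂ) := by
  have hne : χ ≠ 1 := by
    intro h1
    have h2 : χ (-1) = -1 := h
    rw [h1, MulChar.one_apply isUnit_one.neg] at h2
    norm_num at h2
  have h0 : ∑ t ∈ Finset.range d, χ (t : ZMod d) = 0 := by
    have h1 := MulChar.sum_eq_zero_of_ne_one hne
    rwa [BS_sum d (fun t _ => χ t)] at h1
  rw [BS_sum (d * r) (fun t i => (DirichletCharacter.changeLevel (Nat.dvd_mul_right d r) χ) t * (i : ℂ)),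
    BS_sum d (fun t i => χ t * (i : ℂ))]
  have h1 : ∀ i ∈ Finset.range (d * r), (DirichletCharacter.changeLevel (Nat.dvd_mul_right d r) χ) ((i : ℕ) : ZMod (d * r)) * (i : ℂ) =
      χ (i : ZMod d) * (i : ℂ) - (if r ∣ i then χ (i : ZMod d) * (i : ℂ) else 0) := by
    intro i _
    rw [BS_level hr χ i]
    split_ifs
    · ring
    · ring
  rw [Finset.sum_congr rfl h1, Finset.sum_sub_distrib, BS_first χ h0 r]
  have h2 : ∑ i ∈ Finset.range (d * r), (if r ∣ i then χ (i : ZMod d) * (i : ℂ) else 0) =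
      χ (r : ZMod d) * r * ∑ t ∈ Finset.range d, χ (t : ZMod d) * (t : ℂ) := by
    rw [mul_comm d r, BS_second r hr.pos (fun i => χ (i : ZMod d) * (i : ℂ)) d, Finset.mul_sum]
    refine Finset.sum_congr rfl fun s _ => ?_
    push_cast
    rw [map_mul]
    ring
  rw [h2]
  ring

end GK
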