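import Pool.Agent.Lib.MP_4960c7_ag.GK.LW
import Pool.Agent.Lib.MP_4960c7_ag.GK.BS

/-!
# GK-BT: Bernoulli sums of odd characters of a thick modulus
-/

namespace GK

open GJ

private theorem BT_ind (p : ℕ) : ∀ m : ℕ, ∀ [NeZero m], Thick p m → ∀ χ : DirichletCharacter ℂ m, χ.Odd →
    χ (p : ZMod m) = 1 → ∑ u : ZMod m, χ u * (u.val : ℂ) ≠ 0 := by
  intro m
  induction m using Nat.strong_induction_on with
  | _ m ih =>
    intro hNe hm χ h hp
    by_cases hprim : χ.IsPrimitive
    · exact bern_primitive χ hprim h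
    · have hm0 : m ≠ 0 := NeZero.ne m
      obtain ⟨e, he⟩ := χ.conductor_dvd_level
      have hc : χ.conductor ≠ m := hprim
      have he1 : e ≠ 1 := by
        rintro rfl
        rw [mul_one] at he
        exact hc he.symm
      obtain ⟨r, hr, hre⟩ := Nat.exists_prime_and_dvd he1
      obtain ⟨e', he'⟩ := hre
      obtain ⟨d, hd⟩ : ∃ d, d = χ.conductor * e' := ⟨_, rfl⟩
      have hmd : m = d * r := by
        rw [he, he', hd]
        ring
      have hcd : χ.conductor ∣ d := ⟨e', hd⟩
      have hfac : χ.FactorsThrough d := DirichletCharacter.FactorsThrough.mono χ χ.factorsThrough_conductor hcd ⟨r, hmd⟩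
      clear hprim he hc he1 he' hd hcd
      subst hmd
      have hd0 : d ≠ 0 := by
        rintro rfl
        rw [zero_mul] at hm0
        exact hm0 rfl
      have hNd : NeZero d := ⟨hd0⟩
      have hNr : NeZero r := ⟨hr.ne_zero⟩
      have hχ : χ = DirichletCharacter.changeLevel (Nat.dvd_mul_right d r) hfac.χ₀ := hfac.eq_changeLevel
      obtain ⟨χ₀, hχ₀⟩ : ∃ χ₀, χ₀ = hfac.χ₀ := ⟨_, rfl⟩
      rw [← hχ₀] at hχ
      clear hfac hχ₀
      subst hχ
      have hcop : IsCoprime (p : ℤ) ((d * r : ℕ) : ℤ) := by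
        rw [← DirichletCharacter.apply_ne_zero_iff (DirichletCharacter.changeLevel (Nat.dvd_mul_right d r) χ₀)]
        rw [Int.cast_natCast, hp]
        exact one_ne_zero
      have hp0 : χ₀ (p : ZMod d) = 1 := by
        have h1 := DirichletCharacter.changeLevel_eq_cast_of_dvd' χ₀ (Nat.dvd_mul_right d r) hcop
        rw [Int.cast_natCast, Int.cast_natCast, hp] at h1
        exact h1.symm
      have ho : χ₀ (-1) = -1 := by
        have h1 := DirichletCharacter.changeLevel_eq_cast_of_dvd' χ₀ (Nat.dvd_mul_right d r) (a := -1) isCoprime_one_left.neg_left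
        push_cast at h1
        rw [← h1]
        exact h
      have hthick : Thick p d := by
        intro r' d' hr' h1 h2 h3
        exact hm r' d' hr' (dvd_mul_of_dvd_left h1 _) (dvd_mul_of_dvd_left h2 _) h3
      have hlt : d < d * r := by
        have := hr.two_le
        have hd' : 0 < d := Nat.pos_of_ne_zero hd0
        nlinarith
      rw [bern_step hr χ₀ ho]
      refine mul_ne_zero (mul_ne_zero (by exact_mod_cast hr.ne_zero) ?_) (ih d hlt hthick χ₀ ho hp0)
      intro hz
      have hr1 : χ₀ (r : ZMod d) = 1 := (sub_eq_zero.1 hz).symm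
      by_cases hrd : r ∣ d
      · have h1 : χ₀ ((r : ℤ) : ZMod d) = 0 := by
          rw [DirichletCharacter.apply_eq_zero_iff]
          intro hcd
          rw [Nat.isCoprime_iff_coprime] at hcd
          exact (Nat.Prime.coprime_iff_not_dvd hr).1 hcd hrd
        rw [Int.cast_natCast, hr1] at h1
        exact one_ne_zero h1
      · obtain ⟨a, b, hab⟩ := hm r d hr (dvd_mul_left _ _) (dvd_mul_right _ _) hrd
        have h1 := congrArg χ₀ hab
        push_cast at h1
        rw [map_mul, map_pow, map_pow, hp0, hr1, one_pow, one_pow, one_mul, ho] at h1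
        norm_num at h1

theorem bern_thick {p m : ℕ} [NeZero m] (hm : Thick p m) (χ : DirichletCharacter ℂ m) (h : χ.Odd) (hp : χ (p : ZMod m) = 1) :
    ∑ u : ZMod m, χ u * (u.val : ℂ) ≠ 0 :=
  BT_ind p m hm χ h hp

end GK
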