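import Pool.Agent.Lib.MP_4960c7_ag.GK.Orb

/-!
# GK-CA: character sums which vanish

`SS p f m x` depends only on `x` modulo `m`, and `SS p f m (p^k x) = SS p f m x` (`p^f ≡ 1` modulo `m`, the sum over `j < f` is cyclic).
`TT_eq_zero`: there is `s` with `s ≡ -1` modulo `M`, `s ≡ p^k` modulo `m` (`Nat.chineseRemainder'`, the congruence `-1 ≡ p^k` modulo `gcd M m`), `s` is prime to `M` and to `m`, so it is a unit modulo
`lcm M m ∣ Q` and can be lifted to a unit modulo `Q` (`ZMod.unitsMap_surjective`).  Replace `t` by `s t`: the sum changes its sign, `χ(s t) = -χ(t)`, `SS p f m (s t c) = SS p f m (t c)`.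
-/

namespace GK

open GJ

theorem SS_mod {p f m x y : ℕ} (h : x ≡ y [MOD m]) : SS p f m x = SS p f m y := by
  unfold SS
  exact Finset.sum_congr rfl fun j _ => h.mul_left _

private theorem CA_modEq {p f m : ℕ} (hpf : (p : ZMod m) ^ f = 1) : p ^ f ≡ 1 [MOD m] := by
  rw [← ZMod.natCast_eq_natCast_iff]
  push_cast
  exact hpf

private theorem CA_succ {p f m : ℕ} (hpf : (p : ZMod m) ^ f = 1) (x : ℕ) : SS p f m (p * x) = SS p f m x := by
  unfold SS
  have h1 : ∀ j, (p ^ j * (p * x)) % m = (p ^ (j + 1) * x) % m := fun j => by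
    rw [pow_succ, mul_assoc]
  simp only [h1]
  have h2 := Finset.sum_range_succ (fun j => (p ^ j * x) % m) f
  have h3 := Finset.sum_range_succ' (fun j => (p ^ j * x) % m) f
  have h4 : (p ^ f * x) % m = (p ^ 0 * x) % m := by
    rw [pow_zero]
    exact (CA_modEq hpf).mul_right x
  rw [h2, h4] at h3
  exact (Nat.add_right_cancel h3).symm

theorem SS_pow {p f m : ℕ} (hpf : (p : ZMod m) ^ f = 1) (k x : ℕ) : SS p f m (p ^ k * x) = SS p f m x := by
  induction k with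
  | zero => rw [pow_zero, one_mul]
  | succ k ih => rw [pow_succ', mul_assoc, CA_succ hpf, ih]

private theorem CA_cast {p f Q m : ℕ} (hpf : (p : ZMod Q) ^ f = 1) (hm : m ∣ Q) : (p : ZMod m) ^ f = 1 := by
  have h := congrArg (ZMod.castHom hm (ZMod m)) hpf
  rw [map_pow, map_natCast, map_one] at h
  exact h

private theorem CA_unit {p f Q M m : ℕ} [NeZero Q] (hf : 0 < f) (hpf : (p : ZMod Q) ^ f = 1) (hM : M ∣ Q) (hm : m ∣ Q)
    (hk : ∃ k : ℕ, ((p ^ k : ℕ) : ZMod (Nat.gcd M m)) = -1) :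
    ∃ (w : (ZMod Q)ˣ) (k : ℕ), (((w : ZMod Q).val : ℕ) : ZMod M) = -1 ∧ (w : ZMod Q).val ≡ p ^ k [MOD m] := by
  obtain ⟨k, hk⟩ := hk
  have hQ : Q ≠ 0 := NeZero.ne Q
  have hM0 : M ≠ 0 := fun h => hQ (by rw [h] at hM; exact zero_dvd_iff.1 hM)
  have h1 : M - 1 ≡ p ^ k [MOD Nat.gcd M m] := by
    rw [← ZMod.natCast_eq_natCast_iff, hk, Nat.cast_sub (Nat.one_le_iff_ne_zero.2 hM0), Nat.cast_one,
      (ZMod.natCast_eq_zero_iff M (Nat.gcd M m)).2 (Nat.gcd_dvd_left M m), zero_sub]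
  obtain ⟨s, hs1, hs2⟩ := Nat.chineseRemainder' h1
  have hsM : ((s : ℕ) : ZMod M) = -1 := by
    rw [(ZMod.natCast_eq_natCast_iff _ _ _).2 hs1, Nat.cast_sub (Nat.one_le_iff_ne_zero.2 hM0), Nat.cast_one,
      ZMod.natCast_self, zero_sub]
  have hcM : Nat.Coprime s M := by
    rw [← ZMod.isUnit_iff_coprime, hsM]
    exact isUnit_one.neg
  have hcm : Nat.Coprime s m := by
    rw [← ZMod.isUnit_iff_coprime, (ZMod.natCast_eq_natCast_iff _ _ _).2 hs2]
    refine IsUnit.of_mul_eq_one (((p : ZMod m) ^ k) ^ (f - 1)) ?_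
    push_cast
    rw [← pow_succ', Nat.sub_add_cancel hf, ← pow_mul, mul_comm, pow_mul, CA_cast hpf hm, one_pow]
  have hcl : Nat.Coprime s (Nat.lcm M m) :=
    (hcM.mul_right hcm).coprime_dvd_right (Nat.lcm_dvd_mul M m)
  have hl : Nat.lcm M m ∣ Q := Nat.lcm_dvd hM hm
  obtain ⟨w, hw⟩ := ZMod.unitsMap_surjective hl (ZMod.unitOfCoprime s hcl)
  have hw2 : (((w : ZMod Q).val : ℕ) : ZMod (Nat.lcm M m)) = (s : ZMod (Nat.lcm M m)) := by
    have h2 := congrArg (fun u : (ZMod (Nat.lcm M m))ˣ => (u : ZMod (Nat.lcm M m))) hw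
    simp only [ZMod.unitsMap_def, Units.coe_map, ZMod.coe_unitOfCoprime] at h2
    rw [← h2, ZMod.natCast_val]
    rfl
  have hw3 : (w : ZMod Q).val ≡ s [MOD Nat.lcm M m] := (ZMod.natCast_eq_natCast_iff _ _ _).1 hw2
  refine ⟨w, k, ?_, (hw3.of_dvd (Nat.dvd_lcm_right M m)).trans hs2⟩
  rw [← hsM, ZMod.natCast_eq_natCast_iff]
  exact hw3.of_dvd (Nat.dvd_lcm_left M m)

theorem TT_eq_zero {p f Q M m c : ℕ} [NeZero Q] (hf : 0 < f) (hpf : (p : ZMod Q) ^ f = 1) (hM : M ∣ Q) (hm : m ∣ Q)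
    (hk : ∃ k : ℕ, ((p ^ k : ℕ) : ZMod (Nat.gcd M m)) = -1) (χ : DirichletCharacter ℂ M) (hodd : χ.Odd) : TT p f Q m c χ = 0 := by
  obtain ⟨w, k, hw1, hw2⟩ := CA_unit hf hpf hM hm hk
  have hneg : TT p f Q m c χ = - TT p f Q m c χ := by
    conv_lhs => unfold TT
    rw [← Equiv.sum_comp (Equiv.mulLeft w)]
    unfold TT
    rw [← Finset.sum_neg_distrib]
    refine Finset.sum_congr rfl fun t _ => ?_
    have hval : (((Equiv.mulLeft w t : (ZMod Q)ˣ) : ZMod Q)).val ≡ (w : ZMod Q).val * (t : ZMod Q).val [MOD Q] := by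
      rw [Equiv.coe_mulLeft, Units.val_mul, ZMod.val_mul]
      exact Nat.mod_modEq _ _
    have e1 : ((((Equiv.mulLeft w t : (ZMod Q)ˣ) : ZMod Q).val : ℕ) : ZMod M) =
        - ((((t : ZMod Q).val : ℕ) : ZMod M)) := by
      rw [(ZMod.natCast_eq_natCast_iff _ _ _).2 (hval.of_dvd hM), Nat.cast_mul, hw1, neg_one_mul]
    have e2 : SS p f m (((Equiv.mulLeft w t : (ZMod Q)ˣ) : ZMod Q).val * c) = SS p f m ((t : ZMod Q).val * c) := by
      rw [← SS_pow (CA_cast hpf hm) k ((t : ZMod Q).val * c)]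
      refine SS_mod ?_
      rw [← mul_assoc]
      exact ((hval.of_dvd hm).trans (hw2.mul_right _)).mul_right c
    rw [e1, e2, hodd.eval_neg, neg_mul]
  exact self_eq_neg.1 hneg

end GK
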