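import Pool.Agent.Lib.MP_4960c7_ag.GK.Orb

/-!
# GK-CB: character sums at the same level
-/

namespace GK

open GJ

private theorem cast_unit {Q M : ℕ} [NeZero Q] (hM : M ∣ Q) (t : (ZMod Q)ˣ) :
    (((t : ZMod Q).val : ℕ) : ZMod M) = ((ZMod.unitsMap hM t : (ZMod M)ˣ) : ZMod M) := by
  rw [ZMod.unitsMap_val, ZMod.natCast_val]

private theorem sum_fiber {G H : Type} [Group G] [Group H] [Fintype G] [Fintype H] [DecidableEq H] (φ : G →* H)
    (hφ : Function.Surjective φ) (F : H → ℂ) :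
    ∑ t, F (φ t) = (Finset.card (Finset.univ.filter fun t => φ t = 1) : ℂ) * ∑ v, F v := by
  rw [← Finset.sum_fiberwise Finset.univ φ (fun t => F (φ t)), Finset.mul_sum]
  refine Finset.sum_congr rfl fun v _ => ?_
  have h1 : ∀ t ∈ Finset.univ.filter (fun t => φ t = v), F (φ t) = F v := fun t ht => by
    rw [(Finset.mem_filter.mp ht).2]
  rw [Finset.sum_congr rfl h1, Finset.sum_const, nsmul_eq_mul]
  congr 2
  exact MonoidHom.card_fiber_eq_of_mem_range φ (hφ v) (hφ 1)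

private theorem sum_units {M : ℕ} [NeZero M] (χ : DirichletCharacter ℂ M) (g : ZMod M → ℂ) :
    ∑ v : (ZMod M)ˣ, χ (v : ZMod M) * g (v : ZMod M) = ∑ u : ZMod M, χ u * g u := by
  classical
  have h : ∑ u : ZMod M, χ u * g u = ∑ u ∈ Finset.univ.filter (fun u : ZMod M => IsUnit u), χ u * g u := by
    rw [Finset.sum_filter]
    refine Finset.sum_congr rfl fun u _ => ?_
    split_ifs with hu
    · rfl
    · rw [MulChar.map_nonunit χ hu, zero_mul]
  rw [h]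
  refine Finset.sum_bij (fun v _ => (v : ZMod M)) ?_ ?_ ?_ ?_
  · intro v _
    exact Finset.mem_filter.mpr ⟨Finset.mem_univ _, v.isUnit⟩
  · intro v _ w _ e
    exact Units.ext e
  · intro u hu
    obtain ⟨v, hv⟩ := (Finset.mem_filter.mp hu).2
    exact ⟨v, Finset.mem_univ _, hv⟩
  · intro v _
    rfl

private theorem sum_shift {M : ℕ} [NeZero M] (χ : DirichletCharacter ℂ M) (w : (ZMod M)ˣ) :
    ∑ v : (ZMod M)ˣ, χ (v : ZMod M) * ((((w : ZMod M) * (v : ZMod M)).val : ℕ) : ℂ) =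
      χ⁻¹ (w : ZMod M) * ∑ u : ZMod M, χ u * (u.val : ℂ) := by
  rw [← sum_units χ (fun u => (u.val : ℂ)), Finset.mul_sum]
  refine Fintype.sum_equiv (Equiv.mulLeft w) _ _ fun v => ?_
  have e : (((Equiv.mulLeft w) v : (ZMod M)ˣ) : ZMod M) = (w : ZMod M) * (v : ZMod M) := by
    simp
  rw [e, map_mul]
  have h1 : χ⁻¹ (w : ZMod M) * χ (w : ZMod M) = 1 := by
    rw [← MulChar.mul_apply, inv_mul_cancel, MulChar.one_apply_coe]
  linear_combination (-χ (v : ZMod M) * ((((w : ZMod M) * (v : ZMod M)).val : ℕ) : ℂ)) * h1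

theorem exists_TT_eq {p f Q M : ℕ} [NeZero Q] [NeZero M] (hpf : (p : ZMod Q) ^ f = 1) (hM : M ∣ Q) :
    ∃ κ : ℕ, 0 < κ ∧ ∀ (c : ℕ) (χ : DirichletCharacter ℂ M), c.Coprime M → χ (p : ZMod M) = 1 →
      TT p f Q M c χ = κ * (χ⁻¹ (c : ZMod M) * (f * ∑ u : ZMod M, χ u * (u.val : ℂ))) := by
  classical
  refine ⟨Finset.card (Finset.univ.filter fun t : (ZMod Q)ˣ => ZMod.unitsMap hM t = 1), ?_, ?_⟩
  · exact Finset.card_pos.mpr ⟨1, Finset.mem_filter.mpr ⟨Finset.mem_univ _, map_one _⟩⟩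
  intro c χ hc hχ
  have hpu : IsUnit (p : ZMod M) := by
    by_contra hn
    rw [MulChar.map_nonunit χ hn] at hχ
    exact zero_ne_one hχ
  obtain ⟨pu, hp⟩ := hpu
  obtain ⟨cu, hcu⟩ : IsUnit (c : ZMod M) := (ZMod.isUnit_iff_coprime c M).mpr hc
  have hinvp : χ⁻¹ (p : ZMod M) = 1 := by
    have h1 : χ⁻¹ (pu : ZMod M) * χ (pu : ZMod M) = 1 := by
      rw [← MulChar.mul_apply, inv_mul_cancel, MulChar.one_apply_coe]
    rw [hp, hχ, mul_one] at h1
    exact h1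
  have e1 : TT p f Q M c χ = ∑ t : (ZMod Q)ˣ, (fun v : (ZMod M)ˣ => χ (v : ZMod M) *
      ∑ j ∈ Finset.range f, ((((p : ZMod M) ^ j * (c : ZMod M) * (v : ZMod M)).val : ℕ) : ℂ)) (ZMod.unitsMap hM t) := by
    unfold TT
    refine Finset.sum_congr rfl fun t _ => ?_
    rw [cast_unit hM t]
    congr 1
    unfold SS
    rw [Nat.cast_sum]
    refine Finset.sum_congr rfl fun j _ => ?_
    rw [← cast_unit hM t, ← ZMod.val_natCast]
    congr 2
    push_cast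
    ring
  have e0 := sum_fiber (ZMod.unitsMap hM) (ZMod.unitsMap_surjective hM) (fun v : (ZMod M)ˣ => χ (v : ZMod M) *
      ∑ j ∈ Finset.range f, ((((p : ZMod M) ^ j * (c : ZMod M) * (v : ZMod M)).val : ℕ) : ℂ))
  refine (e1.trans e0).trans ?_
  congr 1
  have e2 : ∑ v : (ZMod M)ˣ, χ (v : ZMod M) *
      ∑ j ∈ Finset.range f, ((((p : ZMod M) ^ j * (c : ZMod M) * (v : ZMod M)).val : ℕ) : ℂ) =
      ∑ j ∈ Finset.range f, ∑ v : (ZMod M)ˣ, χ (v : ZMod M) *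
        (((((pu ^ j * cu : (ZMod M)ˣ) : ZMod M) * (v : ZMod M)).val : ℕ) : ℂ) := by
    simp only [Finset.mul_sum]
    rw [Finset.sum_comm]
    refine Finset.sum_congr rfl fun j _ => Finset.sum_congr rfl fun v _ => ?_
    rw [Units.val_mul, Units.val_pow_eq_pow_val, hp, hcu]
  rw [e2]
  have e3 : ∀ j ∈ Finset.range f, ∑ v : (ZMod M)ˣ, χ (v : ZMod M) *
        (((((pu ^ j * cu : (ZMod M)ˣ) : ZMod M) * (v : ZMod M)).val : ℕ) : ℂ) =
      χ⁻¹ (c : ZMod M) * ∑ u : ZMod M, χ u * (u.val : ℂ) := by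
    intro j _
    rw [sum_shift, Units.val_mul, Units.val_pow_eq_pow_val, hp, hcu, map_mul, map_pow, hinvp, one_pow, one_mul]
  rw [Finset.sum_congr rfl e3, Finset.sum_const, Finset.card_range, nsmul_eq_mul]
  ring

theorem unit_sum {Q M : ℕ} [NeZero Q] (hM : M ∣ Q) (χ : DirichletCharacter ℂ M) (hodd : χ.Odd) :
    ∑ t : (ZMod Q)ˣ, χ (((t : ZMod Q).val : ℕ) : ZMod M) = 0 := by
  have h1 : ∑ t : (ZMod Q)ˣ, χ (((t : ZMod Q).val : ℕ) : ZMod M) =
      ∑ t : (ZMod Q)ˣ, -χ (((t : ZMod Q).val : ℕ) : ZMod M) := by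
    refine Fintype.sum_equiv (Equiv.neg _) _ _ fun t => ?_
    have e : (((((Equiv.neg (ZMod Q)ˣ) t : (ZMod Q)ˣ) : ZMod Q).val : ℕ) : ZMod M) =
        -(((t : ZMod Q).val : ℕ) : ZMod M) := by
      have h3 : (((Equiv.neg (ZMod Q)ˣ) t : (ZMod Q)ˣ) : ZMod Q) = -(t : ZMod Q) := by
        simp
      rw [h3, ZMod.natCast_val, ZMod.natCast_val, ← ZMod.castHom_apply (h := hM), ← ZMod.castHom_apply (h := hM), map_neg]
    have h4 : χ (-(((t : ZMod Q).val : ℕ) : ZMod M)) = -χ (((t : ZMod Q).val : ℕ) : ZMod M) := by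
      rw [← neg_one_mul (((t : ZMod Q).val : ℕ) : ZMod M), map_mul, show χ (-1) = -1 from hodd]
      ring
    rw [e, h4, neg_neg]
  rw [Finset.sum_neg_distrib] at h1
  have h2 : (2 : ℂ) * ∑ t : (ZMod Q)ˣ, χ (((t : ZMod Q).val : ℕ) : ZMod M) = 0 := by
    linear_combination h1
  exact (mul_eq_zero.mp h2).resolve_left two_ne_zero

end GK
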