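import Pool.Agent.Lib.MP_4960c7_ag.GK.CA
import Pool.Agent.Lib.MP_4960c7_ag.GK.CB

/-!
# GK-CC: the characters see one order only
-/

namespace GK

open GJ

theorem char_sum_zero {p f Q M : ℕ} [NeZero Q] [NeZero M] {ι : Type} [Fintype ι] (m c : ι → ℕ) (hf : 0 < f) (hpf : (p : ZMod Q) ^ f = 1)
    (hm : ∀ i, m i ∣ Q) (hc : ∀ i, (c i).Coprime (m i)) (A : ℚ)
    (hrel : ∀ t : ℕ, t.Coprime Q → ∑ i, (SS p f (m i) (t * c i) : ℚ) / (m i : ℚ) = A) (hM : M ∣ Q)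
    (hk : ∀ i, m i ≠ M → ∃ k : ℕ, ((p ^ k : ℕ) : ZMod (Nat.gcd M (m i))) = -1) (χ : DirichletCharacter ℂ M) (hodd : χ.Odd)
    (hχ : χ (p : ZMod M) = 1) (hB : ∑ u : ZMod M, χ u * (u.val : ℂ) ≠ 0) :
    ∑ i ∈ Finset.univ.filter (fun i => m i = M), χ⁻¹ (c i : ZMod M) = 0 := by
  obtain ⟨κ, hκ, hTT⟩ := exists_TT_eq (M := M) hpf hM
  have h0 : ∑ t : (ZMod Q)ˣ, χ (((t : ZMod Q).val : ℕ) : ZMod M) *
      ∑ i, (SS p f (m i) ((t : ZMod Q).val * c i) : ℂ) / (m i : ℂ) = 0 := by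
    have h1 : ∀ t : (ZMod Q)ˣ, ∑ i, (SS p f (m i) ((t : ZMod Q).val * c i) : ℂ) / (m i : ℂ) = (A : ℂ) := by
      intro t
      have := congrArg (Rat.cast : ℚ → ℂ) (hrel _ (ZMod.val_coe_unit_coprime t))
      push_cast at this
      exact this
    rw [Finset.sum_congr rfl fun t _ => by rw [h1 t], ← Finset.sum_mul, unit_sum hM χ hodd, zero_mul]
  have h2 : ∑ t : (ZMod Q)ˣ, χ (((t : ZMod Q).val : ℕ) : ZMod M) *
      ∑ i, (SS p f (m i) ((t : ZMod Q).val * c i) : ℂ) / (m i : ℂ) = ∑ i, (m i : ℂ)⁻¹ * TT p f Q (m i) (c i) χ := by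
    unfold TT
    simp only [Finset.mul_sum]
    rw [Finset.sum_comm]
    refine Finset.sum_congr rfl fun i _ => Finset.sum_congr rfl fun t _ => ?_
    rw [div_eq_mul_inv]
    ring
  rw [h2] at h0
  have h3 : ∑ i, (m i : ℂ)⁻¹ * TT p f Q (m i) (c i) χ =
      ∑ i ∈ Finset.univ.filter (fun i => m i = M), (M : ℂ)⁻¹ * (κ * (χ⁻¹ (c i : ZMod M) * (f * ∑ u : ZMod M, χ u * (u.val : ℂ)))) := by
    rw [Finset.sum_filter]
    refine Finset.sum_congr rfl fun i _ => ?_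
    by_cases hi : m i = M
    · rw [if_pos hi, hi, hTT (c i) χ (by rw [← hi]; exact hc i) hχ]
    · rw [if_neg hi, TT_eq_zero hf hpf hM (hm i) (hk i hi) χ hodd, mul_zero]
  rw [h3] at h0
  have h4 : ∑ i ∈ Finset.univ.filter (fun i => m i = M), (M : ℂ)⁻¹ * (κ * (χ⁻¹ (c i : ZMod M) * (f * ∑ u : ZMod M, χ u * (u.val : ℂ)))) =
      ((M : ℂ)⁻¹ * κ * f * ∑ u : ZMod M, χ u * (u.val : ℂ)) * ∑ i ∈ Finset.univ.filter (fun i => m i = M), χ⁻¹ (c i : ZMod M) := by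
    generalize ∑ u : ZMod M, χ u * (u.val : ℂ) = B
    rw [Finset.mul_sum]
    refine Finset.sum_congr rfl fun i _ => ?_
    ring
  rw [h4] at h0
  have hM0 : (M : ℂ) ≠ 0 := Nat.cast_ne_zero.2 (NeZero.ne M)
  have hκ0 : (κ : ℂ) ≠ 0 := Nat.cast_ne_zero.2 hκ.ne'
  have hf0 : (f : ℂ) ≠ 0 := Nat.cast_ne_zero.2 hf.ne'
  rcases mul_eq_zero.1 h0 with h | h
  · exact absurd h (mul_ne_zero (mul_ne_zero (mul_ne_zero (inv_ne_zero hM0) hκ0) hf0) hB)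
  · exact h

end GK
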