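import Pool.Agent.Lib.MP_4960c7_ag.GK.Orb

/-!
# GK-CL: classes of characters, general orders

Adapt GJ/FC.lean (there for prime orders; the same definition of `cl` and `orb`).  `exists_coord`: `χ = Ω^a`, `orderOf χ ∣ q - 1`, `a = c (q-1)/orderOf χ`, and `c` is prime to `orderOf χ`
(`orderOf_pow'`).  `mem_cl_iff`: `Ω^(c' (q-1)/m') = Ω^(p^k c (q-1)/m)`, both exponents give the orders `m'`, `m` (`c' `, `p^k c` prime to `m'`, `m`; `p` is prime to `m ∣ q - 1 = p^f - 1`), so `m' = m` and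
`c' ≡ p^k c` modulo `m`.
-/

namespace GK

open GJ

variable {p f : ℕ} [hp : Fact p.Prime] {F : Type} [Field F] [Fintype F]

private theorem dvd_mul_div {n d a : ℕ} (hn : 0 < n) (hd : d ∣ n) : n ∣ a * (n / d) ↔ d ∣ a := by
  obtain ⟨m, rfl⟩ := hd
  have hd0 : 0 < d := Nat.pos_of_ne_zero fun h => by simp [h] at hn
  have hm : 0 < m := Nat.pos_of_ne_zero fun h => by simp [h] at hn
  rw [Nat.mul_div_cancel_left m hd0]
  exact Nat.mul_dvd_mul_iff_right hm

private theorem modEq_mul_div {n d a b : ℕ} (hn : 0 < n) (hd : d ∣ n) : a * (n / d) ≡ b * (n / d) [MOD n] ↔ a ≡ b [MOD d] := by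
  obtain ⟨m, rfl⟩ := hd
  have hd0 : 0 < d := Nat.pos_of_ne_zero fun h => by simp [h] at hn
  have hm : 0 < m := Nat.pos_of_ne_zero fun h => by simp [h] at hn
  rw [Nat.mul_div_cancel_left m hd0]
  exact Nat.ModEq.mul_right_cancel_iff' hm.ne'

private theorem dvd_of_modEq {n m m' a a' : ℕ} (hn : 0 < n) (hd : m ∣ n) (hd' : m' ∣ n) (ha' : a'.Coprime m')
    (h : a' * (n / m') ≡ a * (n / m) [MOD n]) : m' ∣ m := by
  have h1 : n ∣ (m * a) * (n / m) := (dvd_mul_div hn hd).2 (dvd_mul_right m a)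
  have h2 : m * (a' * (n / m')) ≡ m * (a * (n / m)) [MOD n] := h.mul_left m
  have h3 : n ∣ (m * a') * (n / m') := by
    rw [mul_assoc]
    refine (Nat.modEq_zero_iff_dvd).1 (h2.trans ?_)
    rw [← mul_assoc]
    exact (Nat.modEq_zero_iff_dvd).2 h1
  exact ha'.symm.dvd_of_dvd_mul_right ((dvd_mul_div hn hd').1 h3)

private theorem pow_eq_iff {G : Type*} [Group G] {Ω : G} {n m m' a a' : ℕ} (hn : 0 < n) (hΩ : orderOf Ω = n)
    (hd : m ∣ n) (hd' : m' ∣ n) (ha : a.Coprime m) (ha' : a'.Coprime m') :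
    Ω ^ (a' * (n / m')) = Ω ^ (a * (n / m)) ↔ m' = m ∧ (a' : ZMod m) = (a : ZMod m) := by
  rw [pow_eq_pow_iff_modEq, hΩ]
  constructor
  · intro h
    have hll : m' = m := Nat.dvd_antisymm (dvd_of_modEq hn hd hd' ha' h) (dvd_of_modEq hn hd' hd ha h.symm)
    subst hll
    exact ⟨rfl, (ZMod.natCast_eq_natCast_iff _ _ _).2 ((modEq_mul_div hn hd).1 h)⟩
  · rintro ⟨rfl, h⟩
    exact (modEq_mul_div hn hd).2 ((ZMod.natCast_eq_natCast_iff _ _ _).1 h)

private theorem card_pos' (F : Type) [Field F] [Fintype F] : 0 < Fintype.card F - 1 := by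
  have := Fintype.one_lt_card (α := F)
  omega

private theorem pow_card_sub {F : Type} [Field F] [Fintype F] (χ : MulChar F ℂ) : χ ^ (Fintype.card F - 1) = 1 :=
  orderOf_dvd_iff_pow_eq_one.1 (MulChar.orderOf_dvd_card_sub_one F χ)

private theorem pow_card {F : Type} [Field F] [Fintype F] (χ : MulChar F ℂ) : χ ^ Fintype.card F = χ := by
  have h := card_pos' F
  have h2 : Fintype.card F = Fintype.card F - 1 + 1 := by omega
  rw [h2, pow_succ, pow_card_sub, one_mul]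

private theorem pow_mod {F : Type} [Field F] [Fintype F] {p f : ℕ} (hf : Fintype.card F = p ^ f) (χ : MulChar F ℂ) (k : ℕ) : χ ^ p ^ (k % f) = χ ^ p ^ k := by
  have hP : Function.Periodic (fun k : ℕ => χ ^ p ^ k) f := by
    intro k
    show χ ^ p ^ (k + f) = χ ^ p ^ k
    rw [add_comm, pow_add, pow_mul, ← hf, pow_card]
  exact hP.map_mod_nat k

private theorem f_pos {F : Type} [Field F] [Fintype F] {p f : ℕ} (hf : Fintype.card F = p ^ f) : 0 < f := by
  refine Nat.pos_of_ne_zero fun h => ?_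
  have := Fintype.one_lt_card (α := F)
  rw [hf, h, pow_zero] at this
  exact lt_irrefl _ this

private theorem coprime_sub_one {m : ℕ} (hm : 0 < m) : (m - 1).Coprime m := by
  obtain ⟨x, rfl⟩ : ∃ x, m = x + 1 := ⟨m - 1, by omega⟩
  rw [Nat.add_sub_cancel]
  simp

private theorem coprime_of_dvd {F : Type} [Field F] [Fintype F] {p f m : ℕ} (hf : Fintype.card F = p ^ f) (hd : m ∣ Fintype.card F - 1) : p.Coprime m := by
  have h1 : (Fintype.card F - 1).Coprime (Fintype.card F) := coprime_sub_one Fintype.card_pos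
  have h2 : (p ^ f).Coprime (Fintype.card F - 1) := by
    rw [← hf]
    exact h1.symm
  have h3 : p ∣ p ^ f := dvd_pow_self p (f_pos hf).ne'
  exact Nat.Coprime.coprime_dvd_left h3 (Nat.Coprime.coprime_dvd_right hd h2)

theorem exists_gen (F : Type) [Field F] [Fintype F] : ∃ Ω : MulChar F ℂ, orderOf Ω = Fintype.card F - 1 ∧ ∀ χ : MulChar F ℂ, ∃ a : ℕ, χ = Ω ^ a := by
  classical
  haveI : NeZero (Fintype.card Fˣ) := ⟨Fintype.card_ne_zero⟩
  let e := MulChar.equiv_rootsOfUnity F ℂ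
  haveI : Finite (MulChar F ℂ) := Finite.of_equiv _ e.symm.toEquiv
  haveI : IsCyclic (MulChar F ℂ) := isCyclic_of_surjective e.symm e.symm.surjective
  obtain ⟨Ω, hΩ⟩ := IsCyclic.exists_generator (α := MulChar F ℂ)
  refine ⟨Ω, ?_, fun χ => ?_⟩
  · rw [orderOf_eq_card_of_forall_mem_zpowers hΩ, Nat.card_congr e.toEquiv, Complex.card_rootsOfUnity, Fintype.card_units]
  · obtain ⟨a, ha⟩ := mem_powers_iff_mem_zpowers.mpr (hΩ χ)
    exact ⟨a, ha.symm⟩

theorem exists_coord {Ω : MulChar F ℂ} (hΩ : orderOf Ω = Fintype.card F - 1) (hg : ∀ χ : MulChar F ℂ, ∃ a : ℕ, χ = Ω ^ a) (χ : MulChar F ℂ) :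
    ∃ c : ℕ, orderOf χ ∣ Fintype.card F - 1 ∧ c.Coprime (orderOf χ) ∧ χ = Ω ^ (c * ((Fintype.card F - 1) / orderOf χ)) := by
  obtain ⟨a, ha⟩ := hg χ
  have hn := card_pos' F
  have hd : orderOf χ ∣ Fintype.card F - 1 := MulChar.orderOf_dvd_card_sub_one F χ
  have hpos : 0 < orderOf χ := Nat.pos_of_dvd_of_pos hd hn
  have h1 : Fintype.card F - 1 ∣ a * orderOf χ := by
    rw [← hΩ]
    refine orderOf_dvd_of_pow_eq_one ?_
    rw [pow_mul, ← ha]
    exact pow_orderOf_eq_one χ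
  have h2 : (Fintype.card F - 1) / orderOf χ ∣ a := by
    obtain ⟨m, hm⟩ := hd
    rw [hm, Nat.mul_div_cancel_left m hpos]
    rw [hm, mul_comm a] at h1
    exact Nat.dvd_of_mul_dvd_mul_left hpos h1
  obtain ⟨c, hc⟩ := h2
  refine ⟨c, hd, ?_, ?_⟩
  · obtain ⟨k, hk⟩ := Nat.gcd_dvd_left c (orderOf χ)
    obtain ⟨l, hl⟩ := Nat.gcd_dvd_right c (orderOf χ)
    set g : ℕ := Nat.gcd c (orderOf χ) with hgdef
    have hl0 : 0 < l := Nat.pos_of_ne_zero fun h => by
      rw [h, mul_zero] at hl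
      omega
    have h3 : χ ^ l = 1 := by
      rw [ha, ← pow_mul]
      refine orderOf_dvd_iff_pow_eq_one.1 ?_
      rw [hΩ, hc]
      have h4 : (Fintype.card F - 1) / orderOf χ * c * l = (c * l) * ((Fintype.card F - 1) / orderOf χ) := by ring
      rw [h4]
      refine (dvd_mul_div hn hd).2 ⟨k, ?_⟩
      calc c * l = g * k * l := by rw [← hk]
        _ = (g * l) * k := by ring
        _ = orderOf χ * k := by rw [← hl]
    have h5 : orderOf χ ≤ l := Nat.le_of_dvd hl0 (orderOf_dvd_of_pow_eq_one h3)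
    have hg0 : 0 < g := Nat.pos_of_ne_zero fun h => by
      rw [h, zero_mul] at hl
      omega
    show g = 1
    by_contra hg1
    have h6 : 2 * l ≤ g * l := Nat.mul_le_mul_right l (by omega)
    omega
  · rw [mul_comm, ← hc]
    exact ha

theorem mem_cl_iff (hf : Fintype.card F = p ^ f) {Ω : MulChar F ℂ} (hΩ : orderOf Ω = Fintype.card F - 1) {m m' c c' : ℕ}
    (hd : m ∣ Fintype.card F - 1) (hd' : m' ∣ Fintype.card F - 1) (hc : c.Coprime m) (hc' : c'.Coprime m') :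
    Ω ^ (c' * ((Fintype.card F - 1) / m')) ∈ cl p f (Ω ^ (c * ((Fintype.card F - 1) / m))) ↔ m' = m ∧ (c' : ZMod m) ∈ orb p f (c : ZMod m) := by
  have hn := card_pos' F
  have key : ∀ k : ℕ, (Ω ^ (c * ((Fintype.card F - 1) / m))) ^ p ^ k = Ω ^ (c' * ((Fintype.card F - 1) / m')) ↔
      m' = m ∧ (p : ZMod m) ^ k * (c : ZMod m) = (c' : ZMod m) := by
    intro k
    have h1 : (Ω ^ (c * ((Fintype.card F - 1) / m))) ^ p ^ k = Ω ^ ((p ^ k * c) * ((Fintype.card F - 1) / m)) := by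
      rw [← pow_mul]
      congr 1
      ring
    have h2 : (p ^ k * c).Coprime m := Nat.Coprime.mul_left ((coprime_of_dvd hf hd).pow_left k) hc
    rw [h1, eq_comm, pow_eq_iff hn hΩ hd hd' h2 hc', Nat.cast_mul, Nat.cast_pow]
    exact and_congr_right fun _ => eq_comm
  unfold cl orb
  simp only [Finset.mem_image, Finset.mem_range, key]
  constructor
  · rintro ⟨k, hk, h1, h2⟩
    exact ⟨h1, k, hk, h2⟩
  · rintro ⟨h1, k, hk, h2⟩
    exact ⟨k, hk, h1, h2⟩

theorem mem_cl_inv_iff (hf : Fintype.card F = p ^ f) {Ω : MulChar F ℂ} (hΩ : orderOf Ω = Fintype.card F - 1) {m m' c c' : ℕ}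
    (hd : m ∣ Fintype.card F - 1) (hd' : m' ∣ Fintype.card F - 1) (hc : c.Coprime m) (hc' : c'.Coprime m') :
    (Ω ^ (c' * ((Fintype.card F - 1) / m')))⁻¹ ∈ cl p f (Ω ^ (c * ((Fintype.card F - 1) / m))) ↔ m' = m ∧ (c' : ZMod m) ∈ orb p f (-(c : ZMod m)) := by
  have hn := card_pos' F
  have h1l : 0 < m' := Nat.pos_of_dvd_of_pos hd' hn
  have h1 : (Ω ^ (c' * ((Fintype.card F - 1) / m')))⁻¹ = Ω ^ ((c' * (m' - 1)) * ((Fintype.card F - 1) / m')) := by
    rw [inv_eq_iff_mul_eq_one, ← pow_add, ← add_mul]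
    have e1 : c' + c' * (m' - 1) = c' * m' := by
      obtain ⟨x, rfl⟩ : ∃ x, m' = x + 1 := ⟨m' - 1, by omega⟩
      rw [Nat.add_sub_cancel]
      ring
    rw [e1]
    refine orderOf_dvd_iff_pow_eq_one.1 ?_
    rw [hΩ]
    exact (dvd_mul_div hn hd').2 (dvd_mul_left m' c')
  have h2 : (c' * (m' - 1)).Coprime m' := Nat.Coprime.mul_left hc' (coprime_sub_one h1l)
  rw [h1, mem_cl_iff hf hΩ hd hd' hc h2]
  refine and_congr_right fun hll => ?_
  subst hll
  have h3 : ((c' * (m' - 1) : ℕ) : ZMod m') = -(c' : ZMod m') := by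
    rw [Nat.cast_mul, Nat.cast_sub (by omega), ZMod.natCast_self, Nat.cast_one]
    ring
  rw [h3]
  unfold orb
  simp only [Finset.mem_image, Finset.mem_range]
  refine exists_congr fun k => and_congr_right fun _ => ?_
  rw [mul_neg, neg_eq_iff_eq_neg]

theorem cl_eq (hf : Fintype.card F = p ^ f) {χ χ' : MulChar F ℂ} (h : χ' ∈ cl p f χ) : cl p f χ' = cl p f χ := by
  have hf0 := f_pos hf
  unfold cl at h
  obtain ⟨j, hj, rfl⟩ := Finset.mem_image.1 h
  rw [Finset.mem_range] at hj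
  have h1 : ∀ k, (χ ^ p ^ j) ^ p ^ k = χ ^ p ^ (j + k) := fun k => by rw [← pow_mul, ← pow_add]
  ext ψ
  unfold cl
  simp only [Finset.mem_image, Finset.mem_range, h1]
  constructor
  · rintro ⟨k, hk, rfl⟩
    exact ⟨(j + k) % f, Nat.mod_lt _ hf0, pow_mod hf χ _⟩
  · rintro ⟨k, hk, rfl⟩
    refine ⟨(k + (f - j)) % f, Nat.mod_lt _ hf0, ?_⟩
    rw [← pow_mod hf χ (j + (k + (f - j)) % f), Nat.add_mod_mod]
    have e1 : j + (k + (f - j)) = k + f := by omega
    rw [e1, pow_mod hf χ, pow_add, pow_mul, ← pow_mul, mul_comm, pow_mul, ← hf, pow_card]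

theorem self_mem_cl (hf : Fintype.card F = p ^ f) (χ : MulChar F ℂ) : χ ∈ cl p f χ := by
  unfold cl
  exact Finset.mem_image.2 ⟨0, Finset.mem_range.2 (f_pos hf), by rw [pow_zero, pow_one]⟩

end GK
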