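import Pool.Agent.Lib.MP_4960c7_ag.GJ.FA

/-!
# GK-NA: the relation between the norms, general orders

Adapt the proof of `norm_rel` in GJ/FA.lean (there for prime orders `ℓ i`): it only needs that `m i` does not divide `t c_i` (as `t c_i` is prime to `m i > 1`).
-/

namespace GK

open GJ

theorem norm_rel {p : ℕ} [hp : Fact p.Prime] {F : Type} [Field F] [Fintype F] [Algebra (ZMod p) F] {f : ℕ} (hf : Fintype.card F = p ^ f)
    (Ω : MulChar F ℂ) (hΩ : orderOf Ω = Fintype.card F - 1) {ι : Type} [Fintype ι] (m c : ι → ℕ) (hm : ∀ i, 1 < m i) (hd : ∀ i, m i ∣ Fintype.card F - 1)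
    (hc : ∀ i, (c i).Coprime (m i))
    (h : Pure (Fintype.card F) (Fintype.card ι) (∏ i, gs p F (Ω ^ (c i * ((Fintype.card F - 1) / m i))))) (t : ℕ)
    (ht : t.Coprime (Fintype.card F - 1)) :
    ∑ i, (SS p f (m i) (t * c i) : ℚ) / (m i : ℚ) = (f : ℚ) * (Fintype.card ι : ℚ) / 2 :=
  norm_gen hf Ω hΩ m c hd h t ht fun i h1 => by
    have h2 := (Nat.Coprime.coprime_dvd_right (hd i) ht).symm.dvd_of_dvd_mul_left h1
    exact (hm i).ne' ((hc i).symm.eq_one_of_dvd h2)

end GK
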