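import Pool.Agent.Lib.MP_4960c7_ag.GK.Orb

/-!
# GK-OU: balanced functions on the units modulo `M`

`D(x) = ∑_(k<f) (n(p^k x) - n(-p^k x))` is orthogonal to all characters, so it is zero on the units.
-/

namespace GK

open GJ

private theorem OU_inv {M : ℕ} (χ : DirichletCharacter ℂ M) {w : ZMod M} (hw : IsUnit w) : χ w * χ⁻¹ w = 1 := by
  have h : (χ * χ⁻¹) w = 1 := by
    rw [mul_inv_cancel, MulChar.one_apply hw]
  rwa [MulChar.mul_apply] at h

private theorem OU_shift {M : ℕ} [NeZero M] (ψ : DirichletCharacter ℂ M) (G : ZMod M → ℂ) {w : ZMod M} (hw : IsUnit w) :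
    ∑ t : ZMod M, ψ t * G (w * t) = ψ⁻¹ w * ∑ t : ZMod M, ψ t * G t := by
  rw [Finset.mul_sum]
  obtain ⟨W, hW⟩ := hw
  refine Fintype.sum_equiv (Units.mulLeft W) _ _ fun t => ?_
  have e : (Units.mulLeft W) t = w * t := by
    rw [← hW]
    rfl
  rw [e, map_mul]
  have h1 := OU_inv ψ (w := w) ⟨W, hW⟩
  linear_combination (-ψ t * G (w * t)) * h1

private theorem OU_negone {M : ℕ} (χ : DirichletCharacter ℂ M) : χ⁻¹ (-1) = χ (-1) := by
  have h1 := OU_inv χ (w := -1) isUnit_one.neg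
  have h2 : χ (-1) * χ (-1) = 1 := by
    rw [← map_mul, neg_mul_neg, one_mul, map_one]
  have h3 : χ (-1) ≠ 0 := left_ne_zero_of_mul_eq_one h2
  exact mul_left_cancel₀ h3 (h1.trans h2.symm)

private theorem OU_bal {M p f : ℕ} [NeZero M] (hf : 0 < f) (hpf : (p : ZMod M) ^ f = 1) (n : ZMod M → ℤ)
    (h : ∀ χ : DirichletCharacter ℂ M, χ.Odd → χ (p : ZMod M) = 1 → ∑ v : ZMod M, (n v : ℂ) * χ v = 0) {u : ZMod M} (hu : IsUnit u) :
    ∑ k ∈ Finset.range f, n ((p : ZMod M) ^ k * u) = ∑ k ∈ Finset.range f, n (-((p : ZMod M) ^ k * u)) := by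
  have hpu : IsUnit (p : ZMod M) := IsUnit.of_pow_eq_one hpf hf.ne'
  obtain ⟨D, hDd⟩ : ∃ D : ZMod M → ℂ, D = fun x =>
      ∑ k ∈ Finset.range f, ((n ((p : ZMod M) ^ k * x) : ℂ) - (n (-((p : ZMod M) ^ k * x)) : ℂ)) := ⟨_, rfl⟩
  have key : ∀ χ : DirichletCharacter ℂ M, ∑ x : ZMod M, χ x * D x = 0 := by
    intro χ
    have e0 : ∑ x : ZMod M, χ x * D x = ∑ k ∈ Finset.range f,
        (∑ x : ZMod M, χ x * (n ((p : ZMod M) ^ k * x) : ℂ) - ∑ x : ZMod M, χ x * (n ((-(p : ZMod M) ^ k) * x) : ℂ)) := by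
      simp only [hDd, Finset.mul_sum]
      rw [Finset.sum_comm]
      refine Finset.sum_congr rfl fun k _ => ?_
      rw [← Finset.sum_sub_distrib]
      refine Finset.sum_congr rfl fun x _ => ?_
      rw [neg_mul]
      ring
    have e1 : ∀ k ∈ Finset.range f,
        (∑ x : ZMod M, χ x * (n ((p : ZMod M) ^ k * x) : ℂ) - ∑ x : ZMod M, χ x * (n ((-(p : ZMod M) ^ k) * x) : ℂ)) =
        ((1 - χ (-1)) * ∑ x : ZMod M, χ x * (n x : ℂ)) * (χ⁻¹ (p : ZMod M)) ^ k := by
      intro k _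
      have s1 := OU_shift χ (fun x => (n x : ℂ)) (w := (p : ZMod M) ^ k) (hpu.pow k)
      have s2 := OU_shift χ (fun x => (n x : ℂ)) (w := -(p : ZMod M) ^ k) (hpu.pow k).neg
      rw [s1, s2]
      have s3 : χ⁻¹ (-(p : ZMod M) ^ k) = χ (-1) * (χ⁻¹ (p : ZMod M)) ^ k := by
        rw [show -(p : ZMod M) ^ k = (-1) * (p : ZMod M) ^ k by ring, map_mul, map_pow, OU_negone]
      rw [s3, map_pow]
      ring
    rw [e0, Finset.sum_congr rfl e1, ← Finset.mul_sum]
    rcases χ.even_or_odd with hev | hodd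
    · have : χ (-1) = 1 := hev
      rw [this]
      ring
    · by_cases hχ : χ (p : ZMod M) = 1
      · have h6 : ∑ x : ZMod M, χ x * (n x : ℂ) = 0 := by
          rw [← h χ hodd hχ]
          exact Finset.sum_congr rfl fun x _ => mul_comm _ _
        rw [h6]
        ring
      · have hz : χ⁻¹ (p : ZMod M) ≠ 1 := by
          intro hz
          have := OU_inv χ hpu
          rw [hz, mul_one] at this
          exact hχ this
        have hzf : (χ⁻¹ (p : ZMod M)) ^ f = 1 := by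
          rw [← map_pow, hpf, map_one]
        have hg := mul_geom_sum (χ⁻¹ (p : ZMod M)) f
        rw [hzf, sub_self] at hg
        have h7 := (mul_eq_zero.mp hg).resolve_left (sub_ne_zero.mpr hz)
        rw [h7, mul_zero]
  have hort : ∑ χ : DirichletCharacter ℂ M, χ u⁻¹ * ∑ x : ZMod M, χ x * D x = ((M.totient : ℕ) : ℂ) * D u := by
    have e1 : ∑ χ : DirichletCharacter ℂ M, χ u⁻¹ * ∑ x : ZMod M, χ x * D x =
        ∑ x : ZMod M, (∑ χ : DirichletCharacter ℂ M, χ u⁻¹ * χ x) * D x := by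
      simp only [Finset.mul_sum, Finset.sum_mul]
      rw [Finset.sum_comm]
      refine Finset.sum_congr rfl fun x _ => Finset.sum_congr rfl fun χ _ => ?_
      ring
    rw [e1]
    simp only [DirichletCharacter.sum_char_inv_mul_char_eq ℂ hu]
    rw [Finset.sum_eq_single u]
    · rw [if_pos rfl]
    · intro x _ hx
      rw [if_neg (fun e => hx e.symm), zero_mul]
    · intro hn
      exact absurd (Finset.mem_univ _) hn
  have hz : ((M.totient : ℕ) : ℂ) * D u = 0 := by
    rw [← hort]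
    exact Finset.sum_eq_zero fun χ _ => by rw [key χ, mul_zero]
  have hD : D u = 0 := by
    rcases mul_eq_zero.mp hz with h8 | h8
    · exfalso
      have : M.totient = 0 := by exact_mod_cast h8
      exact (Nat.totient_pos.mpr (Nat.pos_of_ne_zero (NeZero.ne M))).ne' this
    · exact h8
  have h9 : (((∑ k ∈ Finset.range f, n ((p : ZMod M) ^ k * u)) - ∑ k ∈ Finset.range f, n (-((p : ZMod M) ^ k * u)) : ℤ) : ℂ) = 0 := by
    rw [← hD, hDd]
    push_cast
    rw [← Finset.sum_sub_distrib]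
  have h10 : (∑ k ∈ Finset.range f, n ((p : ZMod M) ^ k * u)) - ∑ k ∈ Finset.range f, n (-((p : ZMod M) ^ k * u)) = 0 := by
    exact_mod_cast h9
  linarith

private theorem OU_card {M f : ℕ} (hf : 0 < f) {P : ZMod M} (hP : P ^ f = 1) {j : ℕ} (hj : j < f) :
    ((Finset.range f).filter fun k => P ^ k = P ^ j).card = ((Finset.range f).filter fun k => P ^ k = 1).card := by
  refine Finset.card_nbij' (fun k => (k + (f - j)) % f) (fun k => (k + j) % f) ?_ ?_ ?_ ?_
  · intro k hk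
    rw [Finset.mem_coe, Finset.mem_filter, Finset.mem_range] at hk
    rw [Finset.mem_coe, Finset.mem_filter, Finset.mem_range]
    refine ⟨Nat.mod_lt _ hf, ?_⟩
    rw [← pow_eq_pow_mod _ hP, pow_add, hk.2, ← pow_add]
    have e : j + (f - j) = f := by omega
    rw [e, hP]
  · intro k hk
    rw [Finset.mem_coe, Finset.mem_filter, Finset.mem_range] at hk
    rw [Finset.mem_coe, Finset.mem_filter, Finset.mem_range]
    refine ⟨Nat.mod_lt _ hf, ?_⟩
    rw [← pow_eq_pow_mod _ hP, pow_add, hk.2, one_mul]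
  · intro k hk
    rw [Finset.mem_coe, Finset.mem_filter, Finset.mem_range] at hk
    show ((k + (f - j)) % f + j) % f = k
    rw [Nat.mod_add_mod]
    have e : k + (f - j) + j = k + f := by omega
    rw [e, Nat.add_mod_right, Nat.mod_eq_of_lt hk.1]
  · intro k hk
    rw [Finset.mem_coe, Finset.mem_filter, Finset.mem_range] at hk
    show ((k + j) % f + (f - j)) % f = k
    rw [Nat.mod_add_mod]
    have e : k + j + (f - j) = k + f := by omega
    rw [e, Nat.add_mod_right, Nat.mod_eq_of_lt hk.1]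

private theorem OU_sum {M p f : ℕ} (hf : 0 < f) (hpf : (p : ZMod M) ^ f = 1) (n : ZMod M → ℤ) {u : ZMod M} (hu : IsUnit u) :
    ∑ k ∈ Finset.range f, n ((p : ZMod M) ^ k * u) =
      (((Finset.range f).filter fun k => (p : ZMod M) ^ k = 1).card : ℤ) * ∑ v ∈ orb p f u, n v := by
  rw [Finset.sum_comp n (fun k => (p : ZMod M) ^ k * u), Finset.mul_sum]
  refine Finset.sum_congr rfl fun v hv => ?_
  obtain ⟨j, hj, rfl⟩ := Finset.mem_image.1 hv
  rw [nsmul_eq_mul]
  congr 2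
  rw [← OU_card hf hpf (Finset.mem_range.1 hj)]
  congr 1
  ext k
  rw [Finset.mem_filter, Finset.mem_filter]
  refine and_congr_right fun _ => ?_
  exact hu.mul_left_inj

theorem balanced_orb {M p f : ℕ} [NeZero M] (hf : 0 < f) (hpf : (p : ZMod M) ^ f = 1) (n : ZMod M → ℤ) (h0 : ∀ v, ¬ IsUnit v → n v = 0)
    (h : ∀ χ : DirichletCharacter ℂ M, χ.Odd → χ (p : ZMod M) = 1 → ∑ v : ZMod M, (n v : ℂ) * χ v = 0) {u : ZMod M} (hu : IsUnit u) :
    ∑ v ∈ orb p f u, n v = ∑ v ∈ orb p f (-u), n v := by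
  have h1 := OU_bal hf hpf n h hu
  have h2 : ∑ k ∈ Finset.range f, n (-((p : ZMod M) ^ k * u)) = ∑ k ∈ Finset.range f, n ((p : ZMod M) ^ k * -u) := by
    refine Finset.sum_congr rfl fun k _ => ?_
    rw [mul_neg]
  rw [h2, OU_sum hf hpf n hu, OU_sum hf hpf n hu.neg] at h1
  have hN : (((Finset.range f).filter fun k => (p : ZMod M) ^ k = 1).card : ℤ) ≠ 0 := by
    have : 0 < ((Finset.range f).filter fun k => (p : ZMod M) ^ k = 1).card :=
      Finset.card_pos.2 ⟨0, Finset.mem_filter.2 ⟨Finset.mem_range.2 hf, pow_zero _⟩⟩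
    exact_mod_cast this.ne'
  exact mul_left_cancel₀ hN h1

end GK
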