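import Pool.Agent.Lib.MP_4960c7_ag.GK.BT
import Pool.Agent.Lib.MP_4960c7_ag.GK.NA
import Pool.Agent.Lib.MP_4960c7_ag.GK.CC
import Pool.Agent.Lib.MP_4960c7_ag.GK.OU
import Pool.Agent.Lib.MP_4960c7_ag.GK.CL

/-!
# GK-CT: pure products are balanced

`Ω` (`exists_gen`), `m i = orderOf (χ i)`, `c i` (`exists_coord`).  `Q = q - 1`, `p^f = q ≡ 1` modulo `Q`, `f > 0`.  `M = m j`, `u = c j`.  `norm_rel` and `char_sum_zero` (`hk` from `hD.2`, `Nat.gcd_comm`; `hB` by
`bern_thick` for `χ`) applied to `χ⁻¹` in place of `χ` give `∑_v n(v) χ(v) = 0` with `n v = #{i : m i = M, (c i : ZMod M) = v}` for odd `χ` with `χ(p) = 1`.  `balanced_orb`; and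
`#{i : χ i ∈ cl (χ j)} = ∑_(v ∈ orb u) n v` by `mem_cl_iff`, `#{i : (χ i)⁻¹ ∈ cl (χ j)} = ∑_(v ∈ orb (-u)) n v` by `mem_cl_inv_iff`.  (`Q = 0` is impossible; if `q = 2` all orders are `1`, not in `D`.)
-/

namespace GK

open GJ

private theorem CT_fib {ι : Type} [Fintype ι] {M : ℕ} [DecidableEq (ZMod M)] (m c : ι → ℕ) (O : Finset (ZMod M)) :
    ∑ v ∈ O, (((Finset.univ.filter fun i => m i = M ∧ (c i : ZMod M) = v).card : ℕ) : ℤ) =
      (((Finset.univ.filter fun i => m i = M ∧ (c i : ZMod M) ∈ O).card : ℕ) : ℤ) := by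
  have h := Finset.card_eq_sum_card_fiberwise (f := fun i => (c i : ZMod M))
    (s := Finset.univ.filter fun i => m i = M ∧ (c i : ZMod M) ∈ O) (t := O)
    fun i hi => (Finset.mem_filter.1 hi).2.2
  rw [h, Nat.cast_sum]
  refine Finset.sum_congr rfl fun v hv => ?_
  rw [Finset.filter_filter]
  congr 2
  ext i
  simp only [Finset.mem_filter, Finset.mem_univ, true_and]
  constructor
  · rintro ⟨h1, h2⟩
    exact ⟨⟨h1, by rw [h2]; exact hv⟩, h2⟩
  · rintro ⟨⟨h1, -⟩, h2⟩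
    exact ⟨h1, h2⟩

private theorem CT_char {ι : Type} [Fintype ι] {M : ℕ} [NeZero M] [DecidableEq (ZMod M)] (m c : ι → ℕ) (ψ : DirichletCharacter ℂ M) :
    ∑ v : ZMod M, (((((Finset.univ.filter fun i => m i = M ∧ (c i : ZMod M) = v).card : ℕ) : ℤ)) : ℂ) * ψ v =
      ∑ i ∈ Finset.univ.filter (fun i => m i = M), ψ (c i : ZMod M) := by
  rw [← Finset.sum_fiberwise (Finset.univ.filter fun i => m i = M) (fun i => (c i : ZMod M)) fun i => ψ (c i : ZMod M)]
  refine Finset.sum_congr rfl fun v _ => ?_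
  rw [Finset.sum_congr rfl (g := fun _ => ψ v) fun i hi => by rw [(Finset.mem_filter.1 hi).2], Finset.sum_const, nsmul_eq_mul,
    Finset.filter_filter]
  push_cast
  rfl

open Classical in
/-- The pure products of Gauss sums whose orders form a splitting set are balanced. -/
theorem count {p f : ℕ} [hp : Fact p.Prime] {F : Type} [Field F] [Fintype F] [Algebra (ZMod p) F] {D : Set ℕ} (hD : Splitting p D)
    (hf : Fintype.card F = p ^ f) {ι : Type} [Fintype ι] (χ : ι → MulChar F ℂ) (hχ : ∀ i, orderOf (χ i) ∈ D)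
    (h : Pure (Fintype.card F) (Fintype.card ι) (∏ i, gs p F (χ i))) (j : ι) :
    (Finset.univ.filter fun i => χ i ∈ cl p f (χ j)).card = (Finset.univ.filter fun i => (χ i)⁻¹ ∈ cl p f (χ j)).card := by
  obtain ⟨Ω, hΩ, hg⟩ := exists_gen F
  choose c hdvd hcop hχc using fun i => exists_coord hΩ hg (χ i)
  have hcard := Fintype.one_lt_card (α := F)
  have hQ : Fintype.card F - 1 ≠ 0 := by omega
  have hNQ : NeZero (Fintype.card F - 1) := ⟨hQ⟩
  have hf0 : 0 < f := by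
    refine Nat.pos_of_ne_zero fun h0 => ?_
    rw [hf, h0, pow_zero] at hcard
    exact lt_irrefl _ hcard
  have hpQ : ((p : ZMod (Fintype.card F - 1))) ^ f = 1 := by
    have e1 : p ^ f = (Fintype.card F - 1) + 1 := by
      rw [← hf]
      omega
    have e2 : ((p ^ f : ℕ) : ZMod (Fintype.card F - 1)) = (((Fintype.card F - 1) + 1 : ℕ) : ZMod (Fintype.card F - 1)) :=
      congrArg _ e1
    rwa [Nat.cast_pow, Nat.cast_add, ZMod.natCast_self, Nat.cast_one, zero_add] at e2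
  obtain ⟨m, hmdef⟩ : ∃ m : ι → ℕ, m = fun i => orderOf (χ i) := ⟨_, rfl⟩
  have hm1 : ∀ i, 1 < m i := fun i => by rw [hmdef]; exact (hD.1 _ (hχ i)).1
  have hmd : ∀ i, m i ∣ Fintype.card F - 1 := fun i => by rw [hmdef]; exact hdvd i
  have hmc : ∀ i, (c i).Coprime (m i) := fun i => by rw [hmdef]; exact hcop i
  have hχm : ∀ i, χ i = Ω ^ (c i * ((Fintype.card F - 1) / m i)) := fun i => by rw [hmdef]; exact hχc i
  have hmD : ∀ i, m i ∈ D := fun i => by rw [hmdef]; exact hχ i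
  have hP : Pure (Fintype.card F) (Fintype.card ι) (∏ i, gs p F (Ω ^ (c i * ((Fintype.card F - 1) / m i)))) := by
    rw [Finset.prod_congr rfl fun i _ => by rw [← hχm i]]
    exact h
  have hrel := norm_rel hf Ω hΩ m c hm1 hmd hmc hP
  have hM0 : m j ≠ 0 := by
    have := hm1 j
    omega
  have hNM : NeZero (m j) := ⟨hM0⟩
  have hpM : (p : ZMod (m j)) ^ f = 1 := by
    have e := congrArg (ZMod.castHom (hmd j) (ZMod (m j))) hpQ
    rwa [map_pow, map_natCast, map_one] at e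
  have hchar : ∀ ψ : DirichletCharacter ℂ (m j), ψ.Odd → ψ (p : ZMod (m j)) = 1 →
      ∑ v : ZMod (m j), (((((Finset.univ.filter fun i => m i = m j ∧ (c i : ZMod (m j)) = v).card : ℕ) : ℤ)) : ℂ) * ψ v = 0 := by
    intro ψ hodd hψ
    have ho : (ψ⁻¹).Odd := by
      show ψ⁻¹ (-1) = -1
      have h1 : ψ (-1) = -1 := hodd
      rw [MulChar.inv_apply_eq_inv', h1]
      norm_num
    have hp1 : ψ⁻¹ (p : ZMod (m j)) = 1 := by
      rw [MulChar.inv_apply_eq_inv', hψ, inv_one]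
    have h2 := char_sum_zero m c hf0 hpQ hmd hmc _ hrel (hmd j)
      (fun i hi => hD.2 _ (hmD j) _ (hmD i) (Ne.symm hi)) ψ⁻¹ ho hp1
      (bern_thick (hD.1 _ (hmD j)).2 ψ⁻¹ ho hp1)
    rw [inv_inv] at h2
    rw [CT_char, h2]
  have hbal := balanced_orb hf0 hpM (fun v => (((Finset.univ.filter fun i => m i = m j ∧ (c i : ZMod (m j)) = v).card : ℕ) : ℤ))
    (fun v hv => by
      rw [Nat.cast_eq_zero, Finset.card_eq_zero, Finset.filter_eq_empty_iff]
      rintro i - ⟨h1, h2⟩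
      apply hv
      rw [← h2]
      have h3 := hmc i
      rw [h1] at h3
      exact (ZMod.isUnit_iff_coprime _ _).2 h3) hchar
    ((ZMod.isUnit_iff_coprime _ _).2 (hmc j))
  simp only [CT_fib] at hbal
  have h1 : ∀ i, χ i ∈ cl p f (χ j) ↔ m i = m j ∧ (c i : ZMod (m j)) ∈ orb p f (c j : ZMod (m j)) := by
    intro i
    rw [hχm i, hχm j]
    exact mem_cl_iff hf hΩ (hmd j) (hmd i) (hmc j) (hmc i)
  have h2 : ∀ i, (χ i)⁻¹ ∈ cl p f (χ j) ↔ m i = m j ∧ (c i : ZMod (m j)) ∈ orb p f (-(c j : ZMod (m j))) := by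
    intro i
    rw [hχm i, hχm j]
    exact mem_cl_inv_iff hf hΩ (hmd j) (hmd i) (hmc j) (hmc i)
  simp only [h1, h2]
  exact_mod_cast hbal

end GK
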