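import Pool.Agent.Lib.MP_4960c7_ag.GJ.Defs

/-!
# GK: products of Gauss sums and Tate classes: definitions
-/

namespace GK

open GJ

/-- For every prime divisor `r` of `m` and every divisor `d` of `m` which is not divisible by `r`, `-1` is
congruent modulo `d` to a product of a power of `p` and a power of `r`. -/
def Thick (p m : ℕ) : Prop :=
  ∀ r d : ℕ, r.Prime → r ∣ m → d ∣ m → ¬ r ∣ d → ∃ a b : ℕ, ((p ^ a * r ^ b : ℕ) : ZMod d) = -1

/-- Each `m ∈ D` is larger than one and thick, and for different `m, m' ∈ D`, `-1` is congruent to a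
power of `p` modulo the greatest common divisor of `m` and `m'`. -/
def Splitting (p : ℕ) (D : Set ℕ) : Prop :=
  (∀ m ∈ D, 1 < m ∧ Thick p m) ∧
    ∀ m ∈ D, ∀ m' ∈ D, m ≠ m' → ∃ k : ℕ, ((p ^ k : ℕ) : ZMod (Nat.gcd m m')) = -1

/-- The numbers `m > 1` such that `-1` is a power of `p` modulo each proper divisor of `m`. -/
def Proper (p : ℕ) : Set ℕ :=
  {m | 1 < m ∧ ∀ d : ℕ, d ∣ m → d ≠ m → ∃ a : ℕ, ((p ^ a : ℕ) : ZMod d) = -1}

/-- The powers `l ^ k l`, `l` prime, `k l > 0`. -/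
def PrimePowers (k : ℕ → ℕ) : Set ℕ := {m | ∃ l : ℕ, l.Prime ∧ 0 < k l ∧ m = l ^ k l}

/-- `z` is a root of unity times a Gauss sum of a character of `F` of an order in `D`, or a root of unity
times `√q`. -/
def Eig (D : Set ℕ) (p : ℕ) [Fact p.Prime] (F : Type) [Field F] [Fintype F] [Algebra (ZMod p) F] (z : ℂ) : Prop :=
  (∃ χ : MulChar F ℂ, orderOf χ ∈ D ∧ ∃ M : ℕ, 0 < M ∧ z ^ M = gs p F χ ^ M) ∨
    Pure (Fintype.card F) 1 z

section

variable {C V : Type} [Field C] [AddCommGroup V] [Module C V]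

/-- `z` is a Tate class of weight `k` in the exterior algebra of `V`: it is homogeneous of degree
`2 k`, and a power `Fr ^ N`, `N ≥ 1`, of the Frobenius multiplies it by `q ^ (k N)`. -/
def IsTate (q : ℕ) (Fr : V →ₗ[C] V) (k : ℕ) (z : ExteriorAlgebra C V) : Prop :=
  z ∈ (⋀[C]^(2 * k) V : Submodule C (ExteriorAlgebra C V)) ∧
    ∃ N : ℕ, 0 < N ∧ (ExteriorAlgebra.map Fr)^[N] z = (q : C) ^ (k * N) • z

/-- Every Tate class is a polynomial in Tate classes of degree two. -/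
def TateGeneratedInDegreeTwo (q : ℕ) (Fr : V →ₗ[C] V) : Prop :=
  ∀ (k : ℕ) (z : ExteriorAlgebra C V), IsTate q Fr k z →
    z ∈ Algebra.adjoin C {y : ExteriorAlgebra C V | IsTate q Fr 1 y}

end

end GK
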