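import Pool.Agent.Lib.MP_4960c7_ag.GK.Defs

/-!
# GK-EX: examples of splitting sets
-/

namespace GK

private theorem down {p m d : ℕ} (hd : d ∣ m) (h : ∃ a : ℕ, ((p ^ a : ℕ) : ZMod m) = -1) : ∃ a : ℕ, ((p ^ a : ℕ) : ZMod d) = -1 := by
  obtain ⟨a, ha⟩ := h
  refine ⟨a, ?_⟩
  have := congrArg (ZMod.castHom hd (ZMod d)) ha
  rw [map_natCast, map_neg, map_one] at this
  exact this

private theorem triv {p : ℕ} : ∃ a : ℕ, ((p ^ a : ℕ) : ZMod 1) = -1 := ⟨0, Subsingleton.elim _ _⟩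

/-- One power of each prime, all `m` such that `-1` is a power of `p` modulo `m`, and all `m`, not
prime powers, such that `-1` is a power of `p` modulo each proper divisor of `m`. -/
def Exs (p : ℕ) (k : ℕ → ℕ) : Set ℕ :=
  {m | 1 < m ∧ ((∃ l : ℕ, l.Prime ∧ m = l ^ k l) ∨ (∃ a : ℕ, ((p ^ a : ℕ) : ZMod m) = -1) ∨
    (¬ IsPrimePow m ∧ ∀ d : ℕ, d ∣ m → d ≠ m → ∃ a : ℕ, ((p ^ a : ℕ) : ZMod d) = -1))}

private theorem first_third {p k l m : ℕ} (hl : l.Prime) (hm1 : 1 < m) (hm : ¬ IsPrimePow m)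
    (h : ∀ d : ℕ, d ∣ m → d ≠ m → ∃ a : ℕ, ((p ^ a : ℕ) : ZMod d) = -1) : ∃ a : ℕ, ((p ^ a : ℕ) : ZMod (Nat.gcd (l ^ k) m)) = -1 := by
  refine h _ (Nat.gcd_dvd_right _ _) fun he => hm ?_
  obtain ⟨j, -, hj⟩ := (Nat.dvd_prime_pow hl).1 (Nat.gcd_dvd_left (l ^ k) m)
  rw [he] at hj
  have hj0 : 0 < j := by
    refine Nat.pos_of_ne_zero fun h0 => ?_
    rw [h0, pow_zero] at hj
    omega
  exact (isPrimePow_nat_iff _).2 ⟨l, j, hl, hj0, hj.symm⟩

theorem splitting_exs (p : ℕ) (k : ℕ → ℕ) : Splitting p (Exs p k) := by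
  constructor
  · rintro m ⟨hm1, hm⟩
    refine ⟨hm1, fun r d hr hrm hdm hrd => ?_⟩
    have key : ∃ a : ℕ, ((p ^ a : ℕ) : ZMod d) = -1 := by
      rcases hm with ⟨l, hl, rfl⟩ | h | ⟨-, h⟩
      · have hrl : r = l := (Nat.prime_dvd_prime_iff_eq hr hl).1 (hr.dvd_of_dvd_pow hrm)
        subst hrl
        obtain ⟨j, -, hj⟩ := (Nat.dvd_prime_pow hl).1 hdm
        have hj0 : j = 0 := by
          by_contra h0
          exact hrd (hj ▸ dvd_pow_self r h0)
        rw [hj0, pow_zero] at hj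
        subst hj
        exact triv
      · exact down hdm h
      · exact h d hdm fun h0 => hrd (h0 ▸ hrm)
    obtain ⟨a, ha⟩ := key
    exact ⟨a, 0, by rw [pow_zero, mul_one]; exact ha⟩
  · rintro m ⟨hm1, hm⟩ m' ⟨hm1', hm'⟩ hne
    rcases hm with ⟨l, hl, h⟩ | h | ⟨h0, h⟩
    · rcases hm' with ⟨l', hl', h'⟩ | h' | ⟨h0', h'⟩
      · have hll : l ≠ l' := by
          rintro rfl
          exact hne (h.trans h'.symm)
        have hg : Nat.gcd m m' = 1 := by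
          rw [h, h']
          exact Nat.Coprime.pow _ _ ((Nat.coprime_primes hl hl').2 hll)
        rw [hg]
        exact triv
      · exact down (Nat.gcd_dvd_right _ _) h'
      · rw [h]
        exact first_third hl hm1' h0' h'
    · exact down (Nat.gcd_dvd_left _ _) h
    · rcases hm' with ⟨l', hl', h'⟩ | h' | ⟨h0', h'⟩
      · rw [h', Nat.gcd_comm]
        exact first_third hl' hm1 h0 h
      · exact down (Nat.gcd_dvd_right _ _) h'
      · by_cases hg : Nat.gcd m m' = m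
        · rw [hg]
          exact h' m (hg ▸ Nat.gcd_dvd_right m m') hne
        · exact h _ (Nat.gcd_dvd_left _ _) hg

theorem splitting_proper (p : ℕ) : Splitting p (Proper p) := by
  constructor
  · rintro m ⟨hm1, hm⟩
    refine ⟨hm1, fun r d hr hrm hdm hrd => ?_⟩
    obtain ⟨a, ha⟩ := hm d hdm fun h0 => hrd (h0 ▸ hrm)
    exact ⟨a, 0, by rw [pow_zero, mul_one]; exact ha⟩
  · rintro m ⟨hm1, hm⟩ m' ⟨hm1', hm'⟩ hne
    by_cases hg : Nat.gcd m m' = m
    · rw [hg]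
      exact hm' m (hg ▸ Nat.gcd_dvd_right m m') hne
    · exact hm _ (Nat.gcd_dvd_left _ _) hg

theorem splitting_prime_powers (p : ℕ) (k : ℕ → ℕ) : Splitting p (PrimePowers k) := by
  have h : ∀ m ∈ PrimePowers k, m ∈ Exs p k := by
    rintro m ⟨l, hl, hk, rfl⟩
    exact ⟨Nat.one_lt_pow hk.ne' hl.one_lt, Or.inl ⟨l, hl, rfl⟩⟩
  exact ⟨fun m hm => (splitting_exs p k).1 m (h m hm), fun m hm m' hm' => (splitting_exs p k).2 m (h m hm) m' (h m' hm')⟩

end GK
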