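import Pool.Agent.Lib.MP_4960c7_ag.GJ.Cot

/-!
# GK-LW: the first Bernoulli number of a primitive odd character is not zero

`∑_u u ζ^(ju) = m/(ζ^j - 1) = -m/2 - (im/2) cot(πj/m)`, so `g(χ⁻¹) ∑_u χ(u) u = -(im/2) ∑_j χ⁻¹(j) cot(πj/m)`, and the cotangent sum is not zero.
-/

namespace GK

open GJ Finset

private theorem geom_wt {z : ℂ} {n : ℕ} (h1 : z ≠ 1) (hn : z ^ n = 1) : ∑ u ∈ range n, (u : ℂ) * z ^ u = n / (z - 1) := by
  have h0 : z - 1 ≠ 0 := sub_ne_zero.mpr h1
  have key : ∀ m : ℕ, (∑ u ∈ range m, (u : ℂ) * z ^ u) * (z - 1) ^ 2 = (m : ℂ) * z ^ m * (z - 1) - z ^ (m + 1) + z := by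
    intro m
    induction m with
    | zero => simp
    | succ m ih =>
      rw [sum_range_succ, add_mul, ih]
      push_cast
      ring
  have h := key n
  rw [hn, pow_succ z n, hn] at h
  rw [eq_div_iff h0]
  have h2 : ((∑ u ∈ range n, (u : ℂ) * z ^ u) * (z - 1)) * (z - 1) = (n : ℂ) * (z - 1) := by
    linear_combination h
  exact mul_right_cancel₀ h0 h2

private theorem cot_id (θ : ℂ) (h : Complex.exp (2 * Complex.I * θ) ≠ 1) :
    1 / (Complex.exp (2 * Complex.I * θ) - 1) = -(1 / 2) - Complex.I / 2 * Complex.cot θ := by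
  have h0 : Complex.exp (2 * Complex.I * θ) - 1 ≠ 0 := sub_ne_zero.mpr h
  rw [Complex.cot_eq_exp_ratio]
  rw [div_eq_iff h0]
  have h1 : Complex.I * (1 - Complex.exp (2 * Complex.I * θ)) ≠ 0 := by
    refine mul_ne_zero Complex.I_ne_zero ?_
    intro h'
    apply h0
    linear_combination -h'
  have h2 : 1 - Complex.exp (2 * Complex.I * θ) ≠ 0 := right_ne_zero_of_mul h1
  have hI : Complex.I ≠ 0 := Complex.I_ne_zero
  field_simp
  ring

theorem bern_primitive {m : ℕ} [NeZero m] (χ : DirichletCharacter ℂ m) (hp : χ.IsPrimitive) (h : χ.Odd) :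
    ∑ u : ZMod m, χ u * (u.val : ℂ) ≠ 0 := by
  intro h0
  have hm0 : (m : ℂ) ≠ 0 := Nat.cast_ne_zero.mpr (NeZero.ne m)
  have hm1 : m ≠ 1 := by
    rintro rfl
    have e : (-1 : ZMod 1) = 1 := Subsingleton.elim _ _
    unfold DirichletCharacter.Odd at h
    rw [e, map_one] at h
    norm_num at h
  have hm2 : Fact (1 < m) := ⟨by have := NeZero.ne m; omega⟩
  have hp' : (χ⁻¹).IsPrimitive := by
    rw [DirichletCharacter.isPrimitive_def, DirichletCharacter.conductor_inv]
    exact hp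
  have hodd' : (χ⁻¹).Odd := by
    unfold DirichletCharacter.Odd at h ⊢
    rw [MulChar.inv_apply_eq_inv', h]
    norm_num
  apply cot_sum_ne_zero χ⁻¹ hodd'
  have hprim := Complex.isPrimitiveRoot_exp m (NeZero.ne m)
  set ζ : ℂ := Complex.exp (2 * Real.pi * Complex.I / m) with hζ
  set ψ : AddChar (ZMod m) ℂ := AddChar.zmodChar m hprim.pow_eq_one with hψ
  have hψv : ∀ j : ZMod m, ψ j = ζ ^ j.val := fun j => AddChar.zmodChar_apply _ j
  have hne1 : χ⁻¹ ≠ 1 := by
    intro h1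
    rw [h1] at hodd'
    unfold DirichletCharacter.Odd at hodd'
    rw [MulChar.one_apply (isUnit_one.neg)] at hodd'
    norm_num at hodd'
  -- the inner sum
  have hin : ∀ j : ZMod m, j ≠ 0 → ∑ u : ZMod m, (u.val : ℂ) * ψ (u * j) =
      m * (-(1 / 2) - Complex.I / 2 * Complex.cot (Real.pi * ((j.val / m : ℝ) : ℂ))) := by
    intro j hj
    have e1 : ∀ u : ZMod m, ψ (u * j) = ψ j ^ u.val := by
      intro u
      rw [← AddChar.map_nsmul_eq_pow]
      congr 1
      rw [nsmul_eq_mul, ZMod.natCast_zmod_val]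
    have e2 : ∑ u : ZMod m, (u.val : ℂ) * ψ (u * j) = ∑ k ∈ range m, (k : ℂ) * ψ j ^ k := by
      simp_rw [e1]
      refine (Finset.sum_nbij' (s := univ) (t := range m) (fun u : ZMod m => u.val) (fun k : ℕ => (k : ZMod m)) ?_ ?_ ?_ ?_ ?_)
      · intro u _
        exact mem_range.mpr (ZMod.val_lt u)
      · intro k _
        exact mem_univ _
      · intro u _
        exact ZMod.natCast_zmod_val u
      · intro k hk
        exact ZMod.val_cast_of_lt (mem_range.mp hk)
      · intro u _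
        rfl
    have hz1 : ψ j ≠ 1 := by
      rw [hψv]
      intro h1
      have := (hprim.pow_eq_one_iff_dvd _).mp h1
      have hlt := ZMod.val_lt j
      have h2 : j.val = 0 := Nat.eq_zero_of_dvd_of_lt this hlt
      exact hj ((ZMod.val_eq_zero j).mp h2)
    have hzn : ψ j ^ m = 1 := by
      rw [← AddChar.map_nsmul_eq_pow]
      simp
    rw [e2, geom_wt hz1 hzn]
    have hexp : ψ j = Complex.exp (2 * Complex.I * (Real.pi * ((j.val / m : ℝ) : ℂ))) := by
      rw [hψv, hζ, ← Complex.exp_nat_mul]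
      congr 1
      push_cast
      field_simp
    rw [div_eq_mul_one_div, hexp, cot_id _ (by rw [← hexp]; exact hz1)]
  -- the double sum
  have hd : ∑ j : ZMod m, χ⁻¹ j * ∑ u : ZMod m, (u.val : ℂ) * ψ (u * j) = 0 := by
    simp_rw [mul_sum]
    rw [sum_comm]
    have e3 : ∀ u : ZMod m, ∑ j : ZMod m, χ⁻¹ j * ((u.val : ℂ) * ψ (u * j)) = gaussSum χ⁻¹ ψ * (χ u * (u.val : ℂ)) := by
      intro u
      · have h1 := gaussSum_mulShift_of_isPrimitive ψ hp' u
        rw [inv_inv] at h1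
        have h2 : gaussSum χ⁻¹ (ψ.mulShift u) = ∑ j : ZMod m, χ⁻¹ j * ψ (u * j) := by
          unfold gaussSum
          simp only [AddChar.mulShift_apply]
        rw [h2] at h1
        calc ∑ j : ZMod m, χ⁻¹ j * ((u.val : ℂ) * ψ (u * j)) = (u.val : ℂ) * ∑ j : ZMod m, χ⁻¹ j * ψ (u * j) := by
              rw [mul_sum]
              exact sum_congr rfl fun j _ => by ring
          _ = gaussSum χ⁻¹ ψ * (χ u * (u.val : ℂ)) := by rw [h1]; ring
    rw [sum_congr rfl fun u _ => e3 u, ← mul_sum, h0, mul_zero]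
  have hd2 : ∑ j : ZMod m, χ⁻¹ j * ∑ u : ZMod m, (u.val : ℂ) * ψ (u * j) =
      ∑ j : ZMod m, (-(m : ℂ) / 2 * χ⁻¹ j - m * Complex.I / 2 * (χ⁻¹ j * Complex.cot (Real.pi * ((j.val / m : ℝ) : ℂ)))) := by
    refine sum_congr rfl fun j _ => ?_
    by_cases hj : j = 0
    · rw [hj, MulChar.map_nonunit χ⁻¹ not_isUnit_zero]
      ring
    · rw [hin j hj]
      ring
  rw [hd, sum_sub_distrib, ← mul_sum, ← mul_sum, MulChar.sum_eq_zero_of_ne_one hne1, mul_zero, zero_sub] at hd2
  have h3 : (m : ℂ) * Complex.I / 2 ≠ 0 := by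
    refine div_ne_zero (mul_ne_zero hm0 Complex.I_ne_zero) two_ne_zero
  have h4 := neg_eq_zero.mp hd2.symm
  exact (mul_eq_zero.mp h4).resolve_left h3

end GK
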