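import Pool.Agent.Lib.MP_4960c7_ag.GK.Defs

/-!
# GK: orbits, classes of characters, character sums
-/

namespace GK

open GJ

/-- The orbit of `u` under the multiplication by `p`. -/
def orb (p f : ℕ) {M : ℕ} (u : ZMod M) : Finset (ZMod M) := (Finset.range f).image fun k => (p : ZMod M) ^ k * u

open Classical in
/-- The characters `χ^(p^k)`. -/
noncomputable def cl (p f : ℕ) {F : Type} [Field F] [Fintype F] (χ : MulChar F ℂ) : Finset (MulChar F ℂ) :=
  (Finset.range f).image fun k => χ ^ p ^ k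

/-- The sum of `χ(t) ∑_(j<f) (p^j t c mod m)` over the units `t` modulo `Q`. -/
noncomputable def TT (p f Q m c : ℕ) [NeZero Q] {M : ℕ} (χ : DirichletCharacter ℂ M) : ℂ :=
  ∑ t : (ZMod Q)ˣ, χ (((t : ZMod Q).val : ℕ) : ZMod M) * (SS p f m ((t : ZMod Q).val * c) : ℂ)

end GK
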