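import Pool.Agent.Lib.MP_4960c7_ag.GK.CT
import Pool.Agent.Lib.MP_4960c7_ag.GJ.PR

/-!
# GK-SP: pure products of an even number of Gauss sums split into pure pairs
-/

namespace GK

open GJ

variable {p : ℕ} [hp : Fact p.Prime] {F : Type} [Field F] [Fintype F] [Algebra (ZMod p) F]

private theorem GKSP_prim : (psi p F (Complex.isPrimitiveRoot_exp p hp.out.ne_zero).pow_eq_one).IsPrimitive := by
  apply AddChar.IsPrimitive.of_ne_one
  intro h
  obtain ⟨x, hx⟩ := Algebra.trace_surjective (ZMod p) F 1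
  have h1 := congrArg (fun a : AddChar F ℂ => a x) h
  simp only [AddChar.one_apply] at h1
  rw [psi_apply] at h1
  have h2 : tr p F x = 1 := by
    unfold tr
    rw [hx]
    have : Fact (1 < p) := ⟨hp.out.one_lt⟩
    exact ZMod.val_one p
  rw [h2, pow_one] at h1
  exact (Complex.isPrimitiveRoot_exp p hp.out.ne_zero).ne_one hp.out.one_lt h1

private theorem GKSP_frob (χ : MulChar F ℂ) (k : ℕ) : gs p F (χ ^ p ^ k) = gs p F χ := by
  induction k with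
  | zero => rw [pow_zero, pow_one]
  | succ k ih => rw [pow_succ, pow_mul, gs_eq, gs_frob, ← gs_eq, ih]

private theorem GKSP_sq {E : Type} [Field E] (χ : MulChar E ℂ) : (χ (-1)) ^ 2 = 1 := by
  rw [← map_pow, neg_one_sq, map_one]

private theorem GKSP_mul {χ : MulChar F ℂ} (hχ : χ ≠ 1) :
    gs p F χ * gs p F χ⁻¹ = χ⁻¹ (-1) * (Fintype.card F : ℂ) := by
  rw [gs_eq, gs_eq, ← mul_gaussSum_inv_eq_gaussSum χ⁻¹, ← gaussSum_mul_gaussSum_eq_card hχ (GKSP_prim (p := p))]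
  ring

theorem pure_pair (χ : MulChar F ℂ) (hχ : χ ≠ 1) (k : ℕ) : Pure (Fintype.card F) 2 (gs p F χ * gs p F (χ⁻¹ ^ p ^ k)) := by
  refine ⟨1, one_pos, ?_⟩
  rw [GKSP_frob, GKSP_mul hχ, mul_one, one_mul, mul_pow, GKSP_sq, one_mul]

theorem pure_self {χ : MulChar F ℂ} (hχ : χ ≠ 1) {k : ℕ} (h : χ⁻¹ = χ ^ p ^ k) : Pure (Fintype.card F) 1 (gs p F χ) := by
  refine ⟨2, two_pos, ?_⟩
  have h1 := GKSP_mul (p := p) hχ
  have h2 : gs p F χ⁻¹ = gs p F χ := by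
    rw [h, GKSP_frob]
  rw [h2] at h1
  calc gs p F χ ^ (2 * 2) = (gs p F χ * gs p F χ) ^ 2 := by ring
    _ = _ := by rw [h1, mul_pow, GKSP_sq, one_mul, mul_one]

theorem pure_mul {q : ℕ} {z w : ℂ} (h : Pure q 1 z) (h' : Pure q 1 w) : Pure q 2 (z * w) := by
  obtain ⟨M, hM, h⟩ := h
  obtain ⟨M', hM', h'⟩ := h'
  refine ⟨M * M', Nat.mul_pos hM hM', ?_⟩
  have e1 : z ^ (2 * (M * M')) = (z ^ (2 * M)) ^ M' := by rw [← pow_mul]; ring_nf
  have e2 : w ^ (2 * (M * M')) = (w ^ (2 * M')) ^ M := by rw [← pow_mul]; ring_nf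
  rw [mul_pow, e1, e2, h, h', ← pow_mul, ← pow_mul, ← pow_add]
  congr 1
  ring

theorem pure_of_pairs {q : ℕ} {ι : Type} [Fintype ι] (g : ι → ℂ) (σ : ι → ι) (hσ : ∀ i, σ (σ i) = i) (h : ∀ i, Pure q 2 (g i * g (σ i))) :
    Pure q (Fintype.card ι) (∏ i, g i) := by
  classical
  choose M hM h using h
  refine ⟨2 * ∏ i, M i, Nat.mul_pos two_pos (Finset.prod_pos fun i _ => hM i), ?_⟩
  have hs : ∏ i, g (σ i) = ∏ i, g i :=
    Fintype.prod_bijective σ (Function.Involutive.bijective hσ) _ _ (fun _ => rfl)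
  have h1 : ∀ i, (g i * g (σ i)) ^ (2 * ∏ j, M j) = (q : ℂ) ^ (2 * ∏ j, M j) := by
    intro i
    obtain ⟨c, hc⟩ : M i ∣ ∏ j, M j := Finset.dvd_prod_of_mem M (Finset.mem_univ i)
    rw [hc, ← mul_assoc, pow_mul, h, ← pow_mul]
    congr 1
    ring
  calc (∏ i, g i) ^ (2 * (2 * ∏ i, M i)) = ((∏ i, g i) * ∏ i, g (σ i)) ^ (2 * ∏ i, M i) := by
        rw [hs, ← pow_two, ← pow_mul]
    _ = ∏ i, (g i * g (σ i)) ^ (2 * ∏ j, M j) := by rw [← Finset.prod_mul_distrib, Finset.prod_pow]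
    _ = ∏ _i : ι, (q : ℂ) ^ (2 * ∏ j, M j) := Finset.prod_congr rfl fun i _ => h1 i
    _ = _ := by rw [Finset.prod_const, Finset.card_univ, ← pow_mul]

private theorem GKSP_inv {E : Type} [Field E] [Fintype E] (a f : ℕ) (χ : MulChar E ℂ) [DecidableEq (MulChar E ℂ)] :
    cl a f χ⁻¹ = (cl a f χ).image (·⁻¹) := by
  ext x
  unfold cl
  simp only [Finset.mem_image]
  constructor
  · rintro ⟨k, hk, rfl⟩
    exact ⟨χ ^ a ^ k, ⟨k, hk, rfl⟩, by rw [inv_pow]⟩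
  · rintro ⟨_, ⟨k, hk, rfl⟩, rfl⟩
    exact ⟨k, hk, by rw [inv_pow]⟩

theorem split {D : Set ℕ} (hD : Splitting p D) {ι : Type} [Fintype ι] (χ : ι → MulChar F ℂ) (hχ : ∀ i, orderOf (χ i) ∈ D) (he : Even (Fintype.card ι))
    (h : Pure (Fintype.card F) (Fintype.card ι) (∏ i, gs p F (χ i))) :
    ∃ σ : ι → ι, ∀ i, σ (σ i) = i ∧ σ i ≠ i ∧ ((∃ k : ℕ, χ (σ i) = (χ i)⁻¹ ^ p ^ k) ∨ ((∃ k : ℕ, (χ i)⁻¹ = χ i ^ p ^ k) ∧ (∃ k : ℕ, (χ (σ i))⁻¹ = χ (σ i) ^ p ^ k))) := by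
  classical
  obtain ⟨f, hf⟩ : ∃ f : ℕ, Fintype.card F = p ^ f := by
    refine ⟨Module.finrank (ZMod p) F, ?_⟩
    rw [Module.card_eq_pow_finrank (K := ZMod p) (V := F), ZMod.card]
  have hii : ∀ X : Finset (MulChar F ℂ), (X.image (·⁻¹)).image (·⁻¹) = X := by
    intro X
    rw [Finset.image_image]
    ext x
    simp
  have hiff1 : ∀ i j, cl p f (χ j) = cl p f (χ i) ↔ χ j ∈ cl p f (χ i) := by
    intro i j
    constructor
    · intro e
      rw [← e]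
      exact self_mem_cl hf _
    · exact fun e => cl_eq hf e
  have hiff2 : ∀ i j, cl p f (χ j) = (cl p f (χ i)).image (·⁻¹) ↔ (χ j)⁻¹ ∈ cl p f (χ i) := by
    intro i j
    constructor
    · intro e
      have h1 : χ j ∈ (cl p f (χ i)).image (·⁻¹) := by
        rw [← e]
        exact self_mem_cl hf _
      obtain ⟨x, hx, hx'⟩ := Finset.mem_image.1 h1
      rw [← hx', inv_inv]
      exact hx
    · intro e
      rw [← cl_eq hf e, GKSP_inv, hii]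
  obtain ⟨σ, hσ⟩ := pairing (fun i => cl p f (χ i)) (fun X => X.image (·⁻¹)) hii (by
    intro i
    have h1 := count hD hf χ hχ h i
    simp only [hiff1, hiff2]
    convert h1) he
  refine ⟨σ, fun i => ?_⟩
  obtain ⟨h1, h2, h3⟩ := hσ i
  refine ⟨h1, h2, ?_⟩
  have key : ∀ j, (cl p f (χ j)).image (·⁻¹) = cl p f (χ j) → ∃ k : ℕ, (χ j)⁻¹ = χ j ^ p ^ k := by
    intro j hj
    have h4 : (χ j)⁻¹ ∈ cl p f (χ j) := by
      rw [← hj]
      exact Finset.mem_image_of_mem _ (self_mem_cl hf _)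
    obtain ⟨k, -, hk⟩ := Finset.mem_image.1 h4
    exact ⟨k, hk.symm⟩
  rcases h3 with h3 | ⟨h3, h3'⟩
  · left
    have h4 : χ (σ i) ∈ cl p f (χ i)⁻¹ := by
      rw [GKSP_inv, ← h3]
      exact self_mem_cl hf _
    obtain ⟨k, -, hk⟩ := Finset.mem_image.1 h4
    exact ⟨k, hk.symm⟩
  · right
    exact ⟨key _ h3, key _ h3'⟩

end GK
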