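import Pool.Agent.Lib.MP_4960c7_ag.GK.Defs

/-!
# GK-TP: Tate classes are generated in degree two if the pure sets of eigenvalues fall into pairs

The proof follows `Pool/Agent/Lib/MP_4960c7_ag/WR/Ring.lean`.
-/

namespace GK

open Finset Set.powersetCard

section

variable {F V I : Type} [Field F] [AddCommGroup V] [Module F V] [LinearOrder I]
  (b : Module.Basis I F V) (Fr : V →ₗ[F] V) (e : I → F) (he : ∀ i, Fr (b i) = e i • b i)

include he in
private theorem map_basis (S : Finset I) :
    ExteriorAlgebra.map Fr (b.ExteriorAlgebra S) = (∏ i ∈ S, e i) • b.ExteriorAlgebra S := by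
  rw [ExteriorAlgebra.basis_apply_ofCard b (rfl : S.card = S.card)]
  unfold ExteriorAlgebra.ιMulti_family
  rw [ExteriorAlgebra.map_apply_ιMulti]
  have h1 : (Fr : V → V) ∘ ((b : I → V) ∘ (ofFinEmbEquiv.symm (ofCard (rfl : S.card = S.card)))) =
      fun j => e (S.orderEmbOfFin rfl j) •
        ((b : I → V) ∘ (ofFinEmbEquiv.symm (ofCard (rfl : S.card = S.card)))) j := by
    funext j
    exact he _
  rw [h1]
  have h2 := (ExteriorAlgebra.ιMulti F S.card (M := V)).toMultilinearMap.map_smul_univ
    (fun j => e (S.orderEmbOfFin rfl j))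
    ((b : I → V) ∘ (ofFinEmbEquiv.symm (ofCard (rfl : S.card = S.card))))
  have h3 : ∏ j, e (S.orderEmbOfFin rfl j) = ∏ i ∈ S, e i := by
    have := Finset.prod_map (Finset.univ : Finset (Fin S.card)) (S.orderEmbOfFin rfl).toEmbedding e
    rw [Finset.map_orderEmbOfFin_univ] at this
    exact this.symm
  rw [← h3]
  exact h2

include he in
private theorem iterate_basis (S : Finset I) (N : ℕ) :
    (ExteriorAlgebra.map Fr)^[N] (b.ExteriorAlgebra S) =
      (∏ i ∈ S, e i) ^ N • b.ExteriorAlgebra S := by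
  induction N with
  | zero => simp
  | succ N ih =>
    rw [Function.iterate_succ_apply', ih, map_smul, map_basis b Fr e he, smul_smul, pow_succ]

private theorem iterate_sum (f : ExteriorAlgebra F V →ₐ[F] ExteriorAlgebra F V) (N : ℕ) {J : Type*}
    (s : Finset J) (c : J → F) (v : J → ExteriorAlgebra F V) :
    f^[N] (∑ j ∈ s, c j • v j) = ∑ j ∈ s, c j • f^[N] (v j) := by
  induction N with
  | zero => simp
  | succ N ih =>
    rw [Function.iterate_succ_apply', ih, map_sum]
    refine Finset.sum_congr rfl (fun j _ => ?_)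
    rw [map_smul, Function.iterate_succ_apply']

private theorem mem_of_insert_pair (A : Subalgebra F (ExteriorAlgebra F V)) {i j : I} (hij : i ≠ j)
    {S : Finset I} (hi : i ∉ S) (hj : j ∉ S) (h2 : b.ExteriorAlgebra ({i, j} : Finset I) ∈ A)
    (hS : b.ExteriorAlgebra S ∈ A) : b.ExteriorAlgebra (insert i (insert j S)) ∈ A := by
  have hc : ({i, j} : Finset I).card = 2 := Finset.card_pair hij
  have hdis : Disjoint (ofCard hc).val (ofCard (rfl : S.card = S.card)).val := by
    change Disjoint ({i, j} : Finset I) S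
    rw [Finset.disjoint_left]
    intro x hx
    rcases Finset.mem_insert.1 hx with rfl | hx
    · exact hi
    · rw [Finset.mem_singleton.1 hx]
      exact hj
  have h1 := ExteriorAlgebra.basis_mul_of_disjoint b (ofCard hc) (ofCard (rfl : S.card = S.card))
    hdis
  have h3 : ((disjUnion hdis : Set.powersetCard I (2 + S.card)) : Finset I) =
      insert i (insert j S) := by
    rw [Set.powersetCard.coe_disjUnion]
    ext x
    rw [Finset.mem_disjUnion]
    change x ∈ ({i, j} : Finset I) ∨ x ∈ S ↔ _
    simp only [Finset.mem_insert, Finset.mem_singleton, or_assoc]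
  rw [h3] at h1
  have h4 : b.ExteriorAlgebra ({i, j} : Finset I) * b.ExteriorAlgebra S ∈ A := A.mul_mem h2 hS
  have h5 : b.ExteriorAlgebra ({i, j} : Finset I) * b.ExteriorAlgebra S =
      (Equiv.Perm.sign (permOfDisjoint hdis)) • b.ExteriorAlgebra (insert i (insert j S)) := h1
  rw [h5] at h4
  rcases Int.units_eq_one_or (Equiv.Perm.sign (permOfDisjoint hdis)) with h | h
  · rw [h, one_smul] at h4
    exact h4
  · rw [h, Units.neg_smul, one_smul] at h4
    have := A.neg_mem h4
    rwa [neg_neg] at this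

private theorem pair_isTate (q : ℕ) {i j : I} (hij : i ≠ j) {N : ℕ}
    (hN : 0 < N) (hq : (e i * e j) ^ N = (q : F) ^ N) (he : ∀ i, Fr (b i) = e i • b i) :
    IsTate q Fr 1 (b.ExteriorAlgebra ({i, j} : Finset I)) := by
  have hc : ({i, j} : Finset I).card = 2 := Finset.card_pair hij
  constructor
  · have h := ExteriorAlgebra.basis_eq_coe_basis b (ofCard hc)
    have h' : b.ExteriorAlgebra ({i, j} : Finset I) =
        (b.exteriorPower 2 (ofCard hc) : ExteriorAlgebra F V) := h
    rw [h']
    exact (b.exteriorPower 2 (ofCard hc)).2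
  · refine ⟨N, hN, ?_⟩
    rw [iterate_basis b Fr e he, Finset.prod_pair hij, hq, one_mul]

end

/-- If every finite set of indices whose eigenvalues have a product of the form of a Tate class falls into pairs of the
same kind, the Tate classes are generated in degree two. -/
theorem tate_of_pairs {C V I : Type} [Field C] [AddCommGroup V] [Module C V] (q : ℕ)
    (b : Module.Basis I C V) (Fr : V →ₗ[C] V) (e : I → C) (he : ∀ i, Fr (b i) = e i • b i)
    (h : ∀ (k : ℕ) (S : Finset I), S.card = 2 * k →
      (∃ N : ℕ, 0 < N ∧ (∏ i ∈ S, e i) ^ N = (q : C) ^ (k * N)) →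
      ∃ σ : I → I, ∀ i ∈ S, σ i ∈ S ∧ σ (σ i) = i ∧ σ i ≠ i ∧
        ∃ N : ℕ, 0 < N ∧ (e i * e (σ i)) ^ N = (q : C) ^ N) :
    TateGeneratedInDegreeTwo q Fr := by
  classical
  let _ : LinearOrder I := linearOrderOfSTO WellOrderingRel
  set A : Subalgebra C (ExteriorAlgebra C V) :=
    Algebra.adjoin C {y : ExteriorAlgebra C V | IsTate q Fr 1 y} with hA
  have hmono : ∀ (m : ℕ) (S : Finset I), S.card = m → ∀ σ : I → I,
      (∀ i ∈ S, σ i ∈ S ∧ σ (σ i) = i ∧ σ i ≠ i ∧
        ∃ N : ℕ, 0 < N ∧ (e i * e (σ i)) ^ N = (q : C) ^ N) → b.ExteriorAlgebra S ∈ A := by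
    intro m
    induction m using Nat.strong_induction_on with
    | _ m ih =>
      intro S hSm σ hS
      rcases S.eq_empty_or_nonempty with rfl | ⟨i, hi⟩
      · have : b.ExteriorAlgebra (∅ : Finset I) = 1 := by
          rw [ExteriorAlgebra.basis_apply_ofCard b (Finset.card_empty)]
          unfold ExteriorAlgebra.ιMulti_family
          rw [ExteriorAlgebra.ιMulti_apply]
          simp
        rw [this]
        exact A.one_mem
      obtain ⟨hjS, hji, hne, N, hN, hq⟩ := hS i hi
      set j := σ i with hj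
      have hij : i ≠ j := fun h => hne h.symm
      have hSe : S = insert i (insert j ((S.erase i).erase j)) := by
        rw [Finset.insert_erase (Finset.mem_erase.2 ⟨hij.symm, hjS⟩), Finset.insert_erase hi]
      rw [hSe]
      have hcard : ((S.erase i).erase j).card < m := by
        rw [← hSm]
        exact lt_of_le_of_lt (Finset.card_le_card (Finset.erase_subset _ _)) (Finset.card_erase_lt_of_mem hi)
      refine mem_of_insert_pair b A hij (fun h => ?_) (Finset.notMem_erase _ _) ?_ ?_
      · exact Finset.notMem_erase i S (Finset.mem_of_mem_erase h)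
      · exact Algebra.subset_adjoin (pair_isTate b Fr e q hij hN hq he)
      · refine ih _ hcard _ rfl σ (fun a ha => ?_)
        obtain ⟨ha1, ha2⟩ := Finset.mem_erase.1 ha
        obtain ⟨ha3, ha4⟩ := Finset.mem_erase.1 ha2
        obtain ⟨h1, h2, h3, h4⟩ := hS a ha4
        refine ⟨Finset.mem_erase.2 ⟨fun h5 => ha3 ?_, Finset.mem_erase.2 ⟨fun h5 => ha1 ?_, h1⟩⟩, h2, h3, h4⟩
        · rw [← h2, h5, hji]
        · rw [← h2, h5]
  intro k z hz
  obtain ⟨hzk, N, hN, hzN⟩ := hz
  have hrepr := (b.exteriorPower (2 * k)).linearCombination_repr ⟨z, hzk⟩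
  have hrepr' := congrArg (fun y : (⋀[C]^(2 * k) V : Submodule C (ExteriorAlgebra C V)) =>
    (y : ExteriorAlgebra C V)) hrepr
  beta_reduce at hrepr'
  set c := (b.exteriorPower (2 * k)).repr ⟨z, hzk⟩ with hc
  rw [Finsupp.linearCombination_apply, Finsupp.sum, Submodule.coe_sum] at hrepr'
  have hrepr2 : ∑ s ∈ c.support, c s • b.ExteriorAlgebra (s : Finset I) = z := by
    refine Eq.trans (Finset.sum_congr rfl (fun s _ => ?_)) hrepr'
    rw [ExteriorAlgebra.basis_eq_coe_basis]
    rfl
  rw [← hrepr2] at hzN ⊢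
  refine A.sum_mem (fun s hs => A.smul_mem ?_ _)
  have hcs : c s ≠ 0 := Finsupp.mem_support_iff.1 hs
  rw [iterate_sum, Finset.smul_sum] at hzN
  have h1 := congrArg (fun y => b.ExteriorAlgebra.repr y (s : Finset I)) hzN
  have h2 : ∀ (a : Set.powersetCard I (2 * k) → C), b.ExteriorAlgebra.repr
      (∑ t ∈ c.support, a t • b.ExteriorAlgebra (t : Finset I)) (s : Finset I) = a s := by
    intro a
    rw [map_sum, Finsupp.finsetSum_apply]
    rw [Finset.sum_eq_single s]
    · rw [map_smul, Module.Basis.repr_self, Finsupp.smul_apply, Finsupp.single_eq_same,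
        smul_eq_mul, mul_one]
    · intro t _ hts
      rw [map_smul, Module.Basis.repr_self, Finsupp.smul_apply,
        Finsupp.single_eq_of_ne (fun h => hts (Subtype.ext h.symm)), smul_zero]
    · intro h
      exact absurd hs h
  have h3 : ∑ t ∈ c.support, c t • (ExteriorAlgebra.map Fr)^[N] (b.ExteriorAlgebra (t : Finset I)) =
      ∑ t ∈ c.support, (c t * (∏ i ∈ (t : Finset I), e i) ^ N) •
        b.ExteriorAlgebra (t : Finset I) := by
    refine Finset.sum_congr rfl (fun t _ => ?_)
    rw [iterate_basis b Fr e he, smul_smul]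
  have h4 : ∑ t ∈ c.support, (q : C) ^ (k * N) • c t • b.ExteriorAlgebra (t : Finset I) =
      ∑ t ∈ c.support, ((q : C) ^ (k * N) * c t) • b.ExteriorAlgebra (t : Finset I) :=
    Finset.sum_congr rfl (fun t _ => by rw [smul_smul])
  rw [h3, h4] at h1
  simp only [h2] at h1
  have h5 : (∏ i ∈ (s : Finset I), e i) ^ N = (q : C) ^ (k * N) := by
    rw [mul_comm ((q : C) ^ (k * N))] at h1
    exact mul_left_cancel₀ hcs h1
  obtain ⟨σ, hσ⟩ := h k (s : Finset I) s.2 ⟨N, hN, h5⟩
  exact hmono _ _ rfl σ hσ

end GK
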