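import Pool.Agent.Lib.MP_4960c7_ag.GK.SP
import Pool.Agent.Lib.MP_4960c7_ag.GK.TP

/-!
# GK-TS: Tate classes for Frobenius eigenvalues which are Gauss sums or supersingular
-/

namespace GK

open GJ

private theorem pure_congr {q n M : ℕ} {z w : ℂ} (hM : 0 < M) (h : z ^ M = w ^ M) (hw : Pure q n w) :
    Pure q n z := by
  obtain ⟨N, hN, hN2⟩ := hw
  refine ⟨N * M, Nat.mul_pos hN hM, ?_⟩
  calc z ^ (2 * (N * M)) = (z ^ M) ^ (2 * N) := by rw [← pow_mul]; ring_nf
    _ = (w ^ (2 * N)) ^ M := by rw [h, ← pow_mul, ← pow_mul]; ring_nf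
    _ = _ := by rw [hN2, ← pow_mul]; ring_nf

private theorem pure_add {q n m : ℕ} {z w : ℂ} (hz : Pure q n z) (hw : Pure q m w) : Pure q (n + m) (z * w) := by
  obtain ⟨M, hM, h⟩ := hz
  obtain ⟨M', hM', h'⟩ := hw
  refine ⟨M * M', Nat.mul_pos hM hM', ?_⟩
  have e1 : z ^ (2 * (M * M')) = (z ^ (2 * M)) ^ M' := by rw [← pow_mul]; ring_nf
  have e2 : w ^ (2 * (M * M')) = (w ^ (2 * M')) ^ M := by rw [← pow_mul]; ring_nf
  rw [mul_pow, e1, e2, h, h', ← pow_mul, ← pow_mul, ← pow_add]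
  congr 1
  ring

private theorem pure_cancel {q n m : ℕ} (hq : (q : ℂ) ≠ 0) {z w : ℂ} (hz : Pure q (n + m) (z * w)) (hw : Pure q m w) :
    Pure q n z := by
  obtain ⟨M, hM, h⟩ := hz
  obtain ⟨M', hM', h'⟩ := hw
  refine ⟨M * M', Nat.mul_pos hM hM', ?_⟩
  have e1 : (z * w) ^ (2 * (M * M')) = ((z * w) ^ (2 * M)) ^ M' := by rw [← pow_mul]; ring_nf
  have e2 : w ^ (2 * (M * M')) = (w ^ (2 * M')) ^ M := by rw [← pow_mul]; ring_nf
  rw [h, ← pow_mul, mul_pow, e2, h', ← pow_mul] at e1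
  have e3 : (q : ℂ) ^ (M * (n + m) * M') = (q : ℂ) ^ (M * M' * n) * (q : ℂ) ^ (M' * m * M) := by
    rw [← pow_add]
    ring_nf
  rw [e3] at e1
  exact mul_right_cancel₀ (pow_ne_zero _ hq) e1

private theorem pure_prod {q : ℕ} {T : Type} (s : Finset T) (e : T → ℂ) (h : ∀ i ∈ s, Pure q 1 (e i)) :
    Pure q s.card (∏ i ∈ s, e i) := by
  classical
  induction s using Finset.induction_on with
  | empty => exact ⟨1, one_pos, by simp⟩
  | insert a s ha ih =>
    rw [Finset.prod_insert ha, Finset.card_insert_of_notMem ha, add_comm]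
    exact pure_add (h a (Finset.mem_insert_self a s)) (ih fun i hi => h i (Finset.mem_insert_of_mem hi))

private theorem cl_inv {E : Type} [Field E] [Fintype E] (a f : ℕ) (χ : MulChar E ℂ) [DecidableEq (MulChar E ℂ)] :
    cl a f χ⁻¹ = (cl a f χ).image (·⁻¹) := by
  ext x
  unfold cl
  simp only [Finset.mem_image]
  constructor
  · rintro ⟨k, hk, rfl⟩
    exact ⟨χ ^ a ^ k, ⟨k, hk, rfl⟩, by rw [inv_pow]⟩
  · rintro ⟨_, ⟨k, hk, rfl⟩, rfl⟩
    exact ⟨k, hk, by rw [inv_pow]⟩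

variable {p : ℕ} [hp : Fact p.Prime] {F : Type} [Field F] [Fintype F] [Algebra (ZMod p) F]

/-- A pure product of an even number of such eigenvalues falls into pure pairs. -/
theorem split_eig {D : Set ℕ} (hD : Splitting p D) {T : Type} [Fintype T] (e : T → ℂ) (he : ∀ i, Eig D p F (e i)) (hev : Even (Fintype.card T))
    (h : Pure (Fintype.card F) (Fintype.card T) (∏ i, e i)) :
    ∃ σ : T → T, ∀ i, σ (σ i) = i ∧ σ i ≠ i ∧ Pure (Fintype.card F) 2 (e i * e (σ i)) := by
  classical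
  have hq : (Fintype.card F : ℂ) ≠ 0 := Nat.cast_ne_zero.2 Fintype.card_ne_zero
  obtain ⟨f, hf⟩ : ∃ f : ℕ, Fintype.card F = p ^ f := by
    refine ⟨Module.finrank (ZMod p) F, ?_⟩
    rw [Module.card_eq_pow_finrank (K := ZMod p) (V := F), ZMod.card]
  set P : T → Prop := fun i => ∃ χ : MulChar F ℂ, orderOf χ ∈ D ∧ ∃ M : ℕ, 0 < M ∧ e i ^ M = gs p F χ ^ M
    with hPdef
  have hss : ∀ i, ¬ P i → Pure (Fintype.card F) 1 (e i) := fun i hi => (he i).resolve_left hi
  have hP : ∀ i : {i // P i}, ∃ χ : MulChar F ℂ, orderOf χ ∈ D ∧ ∃ M : ℕ, 0 < M ∧ e i ^ M = gs p F χ ^ M :=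
    fun i => i.2
  choose χ hχ M hM hMe using hP
  have ne1 : ∀ i, χ i ≠ 1 := by
    intro i h1
    have := (hD.1 _ (hχ i)).1
    rw [h1, orderOf_one] at this
    exact lt_irrefl _ this
  -- the product of the Gauss sums is pure
  have h1 : Pure (Fintype.card F) (Fintype.card {i // P i}) (∏ i : {i // P i}, gs p F (χ i)) := by
    have a1 : Pure (Fintype.card F) (Fintype.card {i // P i}) (∏ i : {i // P i}, e i) := by
      have a2 := Finset.prod_filter_mul_prod_filter_not (Finset.univ : Finset T) P e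
      have a3 := Finset.card_filter_add_card_filter_not (s := (Finset.univ : Finset T)) P
      rw [Finset.card_univ] at a3
      rw [← a2, ← a3] at h
      have a4 := pure_cancel hq h (pure_prod _ e fun i hi => hss i (Finset.mem_filter.1 hi).2)
      have a5 : ∏ i ∈ Finset.univ.filter P, e i = ∏ i : {i // P i}, e i :=
        Finset.prod_subtype _ (by simp) _
      rw [a5] at a4
      rw [Fintype.card_subtype]
      exact a4
    refine pure_congr (M := ∏ i, M i) (Finset.prod_pos fun i _ => hM i) ?_ a1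
    rw [← Finset.prod_pow, ← Finset.prod_pow]
    refine Finset.prod_congr rfl fun i _ => ?_
    obtain ⟨c, hc⟩ : M i ∣ ∏ j, M j := Finset.dvd_prod_of_mem M (Finset.mem_univ i)
    rw [hc, pow_mul, pow_mul, hMe]
  have hii : ∀ X : Finset (MulChar F ℂ), (X.image (·⁻¹)).image (·⁻¹) = X := by
    intro X
    rw [Finset.image_image]
    ext x
    simp
  have hiff1 : ∀ i j, cl p f (χ j) = cl p f (χ i) ↔ χ j ∈ cl p f (χ i) := by
    intro i j
    constructor
    · intro e
      rw [← e]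
      exact self_mem_cl hf _
    · exact fun e => cl_eq hf e
  have hiff2 : ∀ i j, cl p f (χ j) = (cl p f (χ i)).image (·⁻¹) ↔ (χ j)⁻¹ ∈ cl p f (χ i) := by
    intro i j
    constructor
    · intro e
      have h1 : χ j ∈ (cl p f (χ i)).image (·⁻¹) := by
        rw [← e]
        exact self_mem_cl hf _
      obtain ⟨x, hx, hx'⟩ := Finset.mem_image.1 h1
      rw [← hx', inv_inv]
      exact hx
    · intro e
      rw [← cl_eq hf e, cl_inv, hii]
  set cls : T → Option (Finset (MulChar F ℂ)) := fun i => if h : P i then some (cl p f (χ ⟨i, h⟩)) else none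
    with hcls
  have cls1 : ∀ i (h : P i), cls i = some (cl p f (χ ⟨i, h⟩)) := fun i h => dif_pos h
  have cls0 : ∀ i, ¬ P i → cls i = none := fun i h => dif_neg h
  have hcard : ∀ X : Finset (MulChar F ℂ), (Finset.univ.filter fun j : T => cls j = some X).card =
      (Finset.univ.filter fun j : {i // P i} => cl p f (χ j) = X).card := by
    intro X
    symm
    refine Finset.card_bij (fun j _ => (j : T)) ?_ ?_ ?_
    · intro j hj
      rw [Finset.mem_filter] at hj ⊢
      refine ⟨Finset.mem_univ _, ?_⟩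
      rw [cls1 j j.2, ← hj.2]
    · intro a _ b _ hab
      exact Subtype.ext hab
    · intro j hj
      have hj' := (Finset.mem_filter.1 hj).2
      by_cases hPj : P j
      · refine ⟨⟨j, hPj⟩, ?_, rfl⟩
        rw [cls1 j hPj] at hj'
        exact Finset.mem_filter.2 ⟨Finset.mem_univ _, Option.some_injective _ hj'⟩
      · rw [cls0 j hPj] at hj'
        exact absurd hj' (by simp)
  obtain ⟨σ, hσ⟩ := pairing cls (Option.map fun X => X.image (·⁻¹)) (by
    intro x
    cases x with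
    | none => rfl
    | some X =>
      show some ((X.image (·⁻¹)).image (·⁻¹)) = some X
      rw [hii]) (by
    intro i
    by_cases hi : P i
    · rw [cls1 i hi]
      show (Finset.univ.filter fun j : T => cls j = some (cl p f (χ ⟨i, hi⟩))).card =
        (Finset.univ.filter fun j : T => cls j = some ((cl p f (χ ⟨i, hi⟩)).image (·⁻¹))).card
      rw [hcard, hcard]
      have h2 := count hD hf χ hχ h1 ⟨i, hi⟩
      simp only [hiff1, hiff2]
      convert h2
    · rw [cls0 i hi]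
      rfl) hev
  have key : ∀ i : {i // P i}, (cl p f (χ i)).image (·⁻¹) = cl p f (χ i) → Pure (Fintype.card F) 1 (e i) := by
    intro j hj
    have h4 : (χ j)⁻¹ ∈ cl p f (χ j) := by
      rw [← hj]
      exact Finset.mem_image_of_mem _ (self_mem_cl hf _)
    obtain ⟨k, -, hk⟩ := Finset.mem_image.1 h4
    exact pure_congr (hM j) (hMe j) (pure_self (ne1 j) hk.symm)
  have key2 : ∀ i, (Option.map fun X : Finset (MulChar F ℂ) => X.image (·⁻¹)) (cls i) = cls i →
      Pure (Fintype.card F) 1 (e i) := by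
    intro i hi
    by_cases hPi : P i
    · rw [cls1 i hPi] at hi
      exact key ⟨i, hPi⟩ (Option.some_injective _ hi)
    · exact hss i hPi
  refine ⟨σ, fun i => ?_⟩
  obtain ⟨h2, h3, h4⟩ := hσ i
  refine ⟨h2, h3, ?_⟩
  rcases h4 with h4 | ⟨h4, h4'⟩
  · by_cases hPi : P i
    · rw [cls1 i hPi] at h4
      by_cases hPj : P (σ i)
      · rw [cls1 _ hPj] at h4
        have h5 : cl p f (χ ⟨σ i, hPj⟩) = (cl p f (χ ⟨i, hPi⟩)).image (·⁻¹) := Option.some_injective _ h4
        have h6 : χ ⟨σ i, hPj⟩ ∈ cl p f (χ ⟨i, hPi⟩)⁻¹ := by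
          rw [cl_inv, ← h5]
          exact self_mem_cl hf _
        obtain ⟨k, -, hk⟩ := Finset.mem_image.1 h6
        refine pure_congr (M := M ⟨i, hPi⟩ * M ⟨σ i, hPj⟩) (Nat.mul_pos (hM _) (hM _)) ?_
          (pure_pair (p := p) (χ ⟨i, hPi⟩) (ne1 _) k)
        have e1 := hMe ⟨i, hPi⟩
        have e2 := hMe ⟨σ i, hPj⟩
        have hk' : (χ ⟨i, hPi⟩)⁻¹ ^ p ^ k = χ ⟨σ i, hPj⟩ := hk
        rw [hk', mul_pow, mul_pow, pow_mul, e1, mul_comm (M ⟨i, hPi⟩), pow_mul, pow_mul (gs p F (χ ⟨σ i, hPj⟩)), e2, ← pow_mul,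
          mul_comm (M ⟨σ i, hPj⟩)]
      · rw [cls0 _ hPj] at h4
        exact absurd h4 (by simp)
    · rw [cls0 i hPi] at h4
      have hPj : ¬ P (σ i) := by
        intro hPj
        rw [cls1 _ hPj] at h4
        exact absurd h4 (by simp)
      exact pure_add (n := 1) (m := 1) (hss i hPi) (hss _ hPj)
  · exact pure_add (n := 1) (m := 1) (key2 i h4) (key2 (σ i) h4')

/-- The Tate classes are generated in degree two. -/
theorem tate {D : Set ℕ} (hD : Splitting p D) {C V I : Type} [Field C] [AddCommGroup V] [Module C V] (φ : ℂ →+* C) (Fr : V →ₗ[C] V)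
    (b : Module.Basis I C V) (e : I → ℂ) (he : ∀ i, Fr (b i) = φ (e i) • b i) (h : ∀ i, Eig D p F (e i)) :
    TateGeneratedInDegreeTwo (Fintype.card F) Fr := by
  classical
  refine tate_of_pairs _ b Fr (fun i => φ (e i)) he ?_
  rintro k S hS ⟨N, hN, hN2⟩
  have h0 : (∏ i ∈ S, e i) ^ N = (Fintype.card F : ℂ) ^ (k * N) := by
    apply φ.injective
    rw [map_pow, map_prod, map_pow, map_natCast]
    exact hN2
  have h1 : Pure (Fintype.card F) (Fintype.card S) (∏ i : S, e i) := by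
    refine ⟨N, hN, ?_⟩
    rw [Finset.prod_coe_sort, Fintype.card_coe, hS, mul_comm 2 N, pow_mul, h0, ← pow_mul]
    ring_nf
  obtain ⟨σ, hσ⟩ := split_eig (F := F) hD (T := S) (fun i => e i) (fun i => h i)
    (by rw [Fintype.card_coe, hS]; exact even_two_mul k) h1
  refine ⟨fun i => if hi : i ∈ S then σ ⟨i, hi⟩ else i, fun i hi => ?_⟩
  obtain ⟨h2, h3, M, hM, h4⟩ := hσ ⟨i, hi⟩
  have h5 : (if hi : i ∈ S then ((σ ⟨i, hi⟩ : S) : I) else i) = (σ ⟨i, hi⟩ : S) := dif_pos hi
  beta_reduce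
  rw [h5]
  refine ⟨(σ ⟨i, hi⟩).2, ?_, ?_, 2 * M, Nat.mul_pos two_pos hM, ?_⟩
  · rw [dif_pos (σ ⟨i, hi⟩).2]
    have : (⟨(σ ⟨i, hi⟩ : S), (σ ⟨i, hi⟩).2⟩ : S) = σ ⟨i, hi⟩ := rfl
    rw [this, h2]
  · intro h6
    exact h3 (Subtype.ext h6)
  · rw [← map_mul, ← map_pow, h4, map_pow, map_natCast, mul_comm M 2]

end GK
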